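import Pool.Agent.H241R3.NilA

set_option autoImplicit false
set_option linter.style.haveILetI false

open Filter Topology Set
open scoped Pointwise

namespace Pool.Agent.H241R3.HM

open Pool.Agent.H241R3.Nil

section
variable {K : Type} [Group K] [TopologicalSpace K] [IsTopologicalGroup K]

theorem precompact_of_compact [CompactSpace K] : Precompact K := by
  intro U hU
  have hU' : interior U ∈ 𝓝 (1 : K) := interior_mem_nhds.2 hU
  obtain ⟨F, hF⟩ := isCompact_univ.elim_finite_subcover (fun g : K => g • interior U)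
    (fun g => isOpen_interior.smul g) (fun x _ => mem_iUnion.2 ⟨x, ⟨1, mem_of_mem_nhds hU', by simp⟩⟩)
  refine ⟨F, fun x => ?_⟩
  obtain ⟨g, hg, hx⟩ := mem_iUnion₂.1 (hF (mem_univ x))
  exact ⟨g, hg, smul_set_mono interior_subset hx⟩

/-- decreasing sequences of neighbourhoods whose intersection is a closed normal subgroup -/
structure Nice (V : ℕ → Set K) : Prop where
  nhds : ∀ k, V k ∈ 𝓝 (1 : K)
  mul : ∀ k, ∀ a ∈ V (k + 1), ∀ b ∈ V (k + 1), a * b ∈ V k
  inv : ∀ k, ∀ a ∈ V (k + 1), a⁻¹ ∈ V k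
  sub : ∀ k, V (k + 1) ⊆ V k
  conj : ∀ k, ∀ v ∈ V (k + 1), ∀ g, g * v * g⁻¹ ∈ V k

theorem exists_nice (hp : Precompact K) (O : ℕ → Set K) (hO : ∀ k, O k ∈ 𝓝 (1 : K)) :
    ∃ V : ℕ → Set K, Nice V ∧ ∀ k, V k ⊆ O k := by
  have step : ∀ (A B : Set K), A ∈ 𝓝 (1 : K) → B ∈ 𝓝 (1 : K) → ∃ V ∈ 𝓝 (1 : K),
      V ⊆ A ∩ B ∧ V * V ⊆ A ∧ V⁻¹ ⊆ A ∧ ∀ v ∈ V, ∀ g : K, g * v * g⁻¹ ∈ A := by
    intro A B hA hB
    obtain ⟨V1, hV1, hV1A⟩ := exists_nhds_one_split hA
    obtain ⟨V2, hV2, hV2A⟩ := sin hp hA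
    refine ⟨V1 ∩ V2 ∩ A⁻¹ ∩ (A ∩ B), ?_, ?_, ?_, ?_, ?_⟩
    · exact inter_mem (inter_mem (inter_mem hV1 hV2) (inv_mem_nhds_one K hA)) (inter_mem hA hB)
    · exact fun v hv => hv.2
    · rintro _ ⟨v, hv, w, hw, rfl⟩
      exact hV1A v hv.1.1.1 w hw.1.1.1
    · intro v hv
      have h1 : v⁻¹ ∈ A⁻¹ := hv.1.2
      simpa using h1
    · intro v hv g
      exact hV2A v hv.1.1.2 g
  choose! nx hnx1 hnx2 hnx3 hnx4 hnx5 using step
  let V : ℕ → Set K := fun n => Nat.rec (nx (O 0) (O 0)) (fun n A => nx A (O (n + 1))) n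
  have hVs : ∀ n, V (n + 1) = nx (V n) (O (n + 1)) := fun n => rfl
  have hV : ∀ n, V n ∈ 𝓝 (1 : K) := by
    intro n
    induction n with
    | zero => exact hnx1 _ _ (hO 0) (hO 0)
    | succ n ih => rw [hVs]; exact hnx1 _ _ ih (hO (n + 1))
  refine ⟨V, ⟨hV, ?_, ?_, ?_, ?_⟩, ?_⟩
  · intro k a ha b hb
    rw [hVs] at ha hb
    exact hnx3 _ _ (hV k) (hO (k + 1)) ⟨a, ha, b, hb, rfl⟩
  · intro k a ha
    rw [hVs] at ha
    exact hnx4 _ _ (hV k) (hO (k + 1)) (by simpa using ha)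
  · intro k
    rw [hVs]
    exact (hnx2 _ _ (hV k) (hO (k + 1))).trans inter_subset_left
  · intro k v hv g
    rw [hVs] at hv
    exact hnx5 _ _ (hV k) (hO (k + 1)) v hv g
  · intro k
    cases k with
    | zero => exact (hnx2 _ _ (hO 0) (hO 0)).trans inter_subset_left
    | succ n => rw [hVs]; exact (hnx2 _ _ (hV n) (hO (n + 1))).trans inter_subset_right

/-- the intersection of a nice sequence -/
def Nice.core {V : ℕ → Set K} (hV : Nice V) : Subgroup K where
  carrier := {x | ∀ k, x ∈ V k}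
  one_mem' := fun k => mem_of_mem_nhds (hV.nhds k)
  mul_mem' := fun ha hb k => hV.mul k _ (ha (k + 1)) _ (hb (k + 1))
  inv_mem' := fun ha k => hV.inv k _ (ha (k + 1))

theorem Nice.closure_sub {V : ℕ → Set K} (hV : Nice V) (k : ℕ) : closure (V (k + 1)) ⊆ V k := by
  intro x hx
  have h1 : (fun y => x * y) '' V (k + 2) ∈ 𝓝 x := by
    have := (Homeomorph.mulLeft x).isOpenMap.image_mem_nhds (hV.nhds (k + 2))
    simpa using this
  obtain ⟨_, ⟨v, hv, rfl⟩, hy⟩ := mem_closure_iff_nhds.1 hx _ h1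
  have h2 := hV.mul k _ hy _ (hV.inv (k + 1) v hv)
  simpa using h2

omit [IsTopologicalGroup K] in
theorem Nice.antitone {V : ℕ → Set K} (hV : Nice V) : Antitone V :=
  antitone_nat_of_succ_le hV.sub

theorem Nice.core_closed {V : ℕ → Set K} (hV : Nice V) : IsClosed (hV.core : Set K) := by
  have : (hV.core : Set K) = ⋂ k, closure (V k) := by
    ext x
    constructor
    · intro hx
      exact mem_iInter.2 fun k => subset_closure (hx k)
    · intro hx k
      exact hV.closure_sub k (mem_iInter.1 hx (k + 1))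
  rw [this]
  exact isClosed_iInter fun k => isClosed_closure

omit [IsTopologicalGroup K] in
theorem Nice.core_normal {V : ℕ → Set K} (hV : Nice V) : hV.core.Normal :=
  ⟨fun n hn g k => hV.conj k n (hn (k + 1)) g⟩

theorem Nice.exists_sub [CompactSpace K] {V : ℕ → Set K} (hV : Nice V) (U : Set K)
    (hU : ∀ x ∈ hV.core, U ∈ 𝓝 x) : ∃ k, V k ⊆ U := by
  obtain ⟨k, hk⟩ := exists_subset_nhds_of_isCompact' (V := fun k => closure (V k))
    (by
      apply directed_of_isDirected_le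
      intro i j hij
      exact closure_mono (hV.antitone hij)) (fun k => isClosed_closure.isCompact)
    (fun k => isClosed_closure) (U := U) (by
      intro x hx
      apply hU
      intro k
      exact hV.closure_sub k (mem_iInter.1 hx (k + 1)))
  exact ⟨k, subset_closure.trans hk⟩

theorem Nice.exists_sub' [CompactSpace K] {V : ℕ → Set K} (hV : Nice V) {F : Set K}
    (hF : IsClosed F) (h1 : ∀ x ∈ F, (∀ k, x ∈ V k) → x = 1) (U : Set K) (hU : U ∈ 𝓝 (1 : K)) :
    ∃ k, V k ∩ F ⊆ U := by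
  obtain ⟨k, hk⟩ := exists_subset_nhds_of_isCompact' (V := fun k => closure (V k) ∩ F)
    (by
      apply directed_of_isDirected_le
      intro i j hij
      exact inter_subset_inter_left _ (closure_mono (hV.antitone hij)))
    (fun k => (isClosed_closure.inter hF).isCompact)
    (fun k => isClosed_closure.inter hF) (U := U) (by
      intro x hx
      have : x = 1 := by
        apply h1 x (mem_iInter.1 hx 0).2
        intro k
        exact hV.closure_sub k (mem_iInter.1 hx (k + 1)).1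
      rw [this]
      exact hU)
  exact ⟨k, (inter_subset_inter_left _ subset_closure).trans hk⟩

/-- strongly dense sequences modulo a subset -/
def SD (x : ℕ → K) (N : Set K) : Prop :=
  ∀ g : K, ∀ V ∈ 𝓝 (1 : K), {n | ∃ v ∈ V, ∃ m ∈ N, x n = g * v * m}.Infinite

end

/-- the approximations -/
structure PP (K : Type) [Group K] [TopologicalSpace K] where
  N : Subgroup K
  x : ℕ → K
  closed : IsClosed (N : Set K)
  gd : ∃ O : ℕ → Set K, (∀ k, O k ∈ 𝓝 (1 : K)) ∧ ∀ z, (∀ k, z ∈ O k) → z ∈ N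
  sd : SD x (N : Set K)

section
variable {K : Type} [Group K] [TopologicalSpace K] [IsTopologicalGroup K]

/-- `q` is strictly finer than `p` -/
def rr (p q : PP K) : Prop := q.N < p.N ∧ ∀ n, (p.x n)⁻¹ * q.x n ∈ p.N

omit [IsTopologicalGroup K] in
theorem rr_trans {p q s : PP K} (h1 : rr p q) (h2 : rr q s) : rr p s := by
  refine ⟨h2.1.trans h1.1, fun n => ?_⟩
  have := p.N.mul_mem (h1.2 n) (h1.1.le (h2.2 n))
  rwa [show (p.x n)⁻¹ * q.x n * ((q.x n)⁻¹ * s.x n) = (p.x n)⁻¹ * s.x n by group] at this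

theorem coherent [CompactSpace K] (C : Set (PP K)) (hC : IsChain rr C) :
    ∃ y : ℕ → K, ∀ q ∈ C, ∀ n, (q.x n)⁻¹ * y n ∈ q.N := by
  have key : ∀ n, ∃ y : K, ∀ q ∈ C, (q.x n)⁻¹ * y ∈ q.N := by
    intro n
    rcases C.eq_empty_or_nonempty with rfl | hne
    · exact ⟨1, fun q hq => absurd hq (by simp)⟩
    haveI : Nonempty C := hne.to_subtype
    have hcl : ∀ q : C, IsClosed {y : K | ((q : PP K).x n)⁻¹ * y ∈ (q : PP K).N} := fun q =>
      (q : PP K).closed.preimage (continuous_const.mul continuous_id)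
    obtain ⟨y, hy⟩ := IsCompact.nonempty_iInter_of_directed_nonempty_isCompact_isClosed
      (fun q : C => {y : K | ((q : PP K).x n)⁻¹ * y ∈ (q : PP K).N})
      (by
        intro p q
        have aux : ∀ a b : C, rr (a : PP K) b →
            {y : K | ((b : PP K).x n)⁻¹ * y ∈ (b : PP K).N} ⊆
              {y : K | ((a : PP K).x n)⁻¹ * y ∈ (a : PP K).N} := by
          intro a b hab y hy
          have := (a : PP K).N.mul_mem (hab.2 n) (hab.1.le hy)
          rwa [show ((a : PP K).x n)⁻¹ * (b : PP K).x n * (((b : PP K).x n)⁻¹ * y) =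
            ((a : PP K).x n)⁻¹ * y by group] at this
        by_cases hpq : p = q
        · subst hpq
          exact ⟨p, subset_rfl, subset_rfl⟩
        · rcases hC p.2 q.2 (fun h => hpq (Subtype.ext h)) with h | h
          · exact ⟨q, aux _ _ h, subset_rfl⟩
          · exact ⟨p, subset_rfl, aux _ _ h⟩)
      (fun q => ⟨(q : PP K).x n, by
        show ((q : PP K).x n)⁻¹ * (q : PP K).x n ∈ (q : PP K).N
        rw [inv_mul_cancel]
        exact one_mem _⟩)
      (fun q => (hcl q).isCompact) hcl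
    exact ⟨y, fun q hq => mem_iInter.1 hy ⟨q, hq⟩⟩
  choose y hy using key
  exact ⟨y, fun q hq n => hy n q hq⟩

theorem sd_inf [CompactSpace K] (C : Set (PP K)) (hC : IsChain rr C) (y : ℕ → K)
    (hy : ∀ q ∈ C, ∀ n, (q.x n)⁻¹ * y n ∈ q.N) :
    SD y {z : K | ∀ q ∈ C, z ∈ q.N} := by
  intro g V hV
  rcases C.eq_empty_or_nonempty with rfl | hne
  · have : {n | ∃ v ∈ V, ∃ m ∈ {z : K | ∀ q ∈ (∅ : Set (PP K)), z ∈ q.N}, y n = g * v * m} =
        Set.univ := by
      ext n
      simp only [mem_univ, iff_true]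
      exact ⟨1, mem_of_mem_nhds hV, g⁻¹ * y n, fun q hq => absurd hq (by simp), by group⟩
    rw [this]
    exact Set.infinite_univ
  haveI : Nonempty C := hne.to_subtype
  obtain ⟨V', hV'o, hV'1, hVV⟩ := exists_open_nhds_one_mul_subset hV
  obtain ⟨q, hq⟩ := exists_subset_nhds_of_isCompact' (V := fun q : C => ((q : PP K).N : Set K))
    (by
      intro p q
      by_cases hpq : p = q
      · subst hpq
        exact ⟨p, subset_rfl, subset_rfl⟩
      · rcases hC p.2 q.2 (fun h => hpq (Subtype.ext h)) with h | h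
        · exact ⟨q, h.1.le, subset_rfl⟩
        · exact ⟨p, subset_rfl, h.1.le⟩)
    (fun q => (q : PP K).closed.isCompact) (fun q => (q : PP K).closed)
    (U := V' * {z : K | ∀ q ∈ C, z ∈ q.N}) (by
      intro x hx
      refine (hV'o.mul_right).mem_nhds ⟨1, hV'1, x, ?_, one_mul x⟩
      intro q hq
      exact mem_iInter.1 hx ⟨q, hq⟩)
  refine ((q : PP K).sd g V' (hV'o.mem_nhds hV'1)).mono ?_
  rintro n ⟨v, hv, m, hm, hx⟩
  have h1 : m * (((q : PP K).x n)⁻¹ * y n) ∈ ((q : PP K).N : Set K) :=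
    (q : PP K).N.mul_mem hm (hy q q.2 n)
  obtain ⟨v', hv', m', hm', hvm⟩ := hq h1
  refine ⟨v * v', hVV ⟨v, hv, v', hv', rfl⟩, m', hm', ?_⟩
  have h2 : v' * m' = m * (((q : PP K).x n)⁻¹ * y n) := hvm
  have h3 : y n = g * v * (m * (((q : PP K).x n)⁻¹ * y n)) := by
    rw [← mul_assoc (g * v) m, ← hx, mul_inv_cancel_left]
  calc y n = g * v * (m * (((q : PP K).x n)⁻¹ * y n)) := h3
    _ = g * v * (v' * m') := by rw [h2]
    _ = g * (v * v') * m' := by group

end

end Pool.Agent.H241R3.HM
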