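import Pool.Agent.H241R3.HMA

set_option autoImplicit false
set_option linter.style.haveILetI false

open Filter Topology Set
open scoped Pointwise

namespace Pool.Agent.H241R3.HM

open Pool.Agent.H241R3.Nil

/-- distinct representatives -/
theorem sdr (S : ℕ → Set ℕ) (h : ∀ i, (S i).Infinite) :
    ∃ c : ℕ → ℕ, StrictMono c ∧ ∀ i, c i ∈ S i := by
  choose f hf hf' using fun i n => (h i).exists_gt n
  let c : ℕ → ℕ := fun i => Nat.rec (f 0 0) (fun i a => f (i + 1) a) i
  have hc : ∀ i, c (i + 1) = f (i + 1) (c i) := fun i => rfl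
  refine ⟨c, strictMono_nat_of_lt_succ fun i => ?_, fun i => ?_⟩
  · rw [hc]
    exact hf' _ _
  · cases i with
    | zero => exact hf 0 0
    | succ i => rw [hc]; exact hf _ _

section
variable {K : Type} [Group K] [TopologicalSpace K] [IsTopologicalGroup K] [CompactSpace K]

theorem ext [T2Space K] (hnot : ¬ CP (Set.univ : Set K)) (C₀ : Set (PP K)) (hc : C₀.Countable)
    (hchain : IsChain rr C₀) : ∃ p : PP K, ∀ q ∈ C₀, rr q p := by
  classical
  obtain ⟨y, hy⟩ := coherent C₀ hchain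
  have hsd := sd_inf C₀ hchain y hy
  -- countably many neighbourhoods
  obtain ⟨O, hO, hON⟩ : ∃ O : ℕ → Set K, (∀ k, O k ∈ 𝓝 (1 : K)) ∧
      ∀ z, (∀ k, z ∈ O k) → ∀ q ∈ C₀, z ∈ q.N := by
    rcases C₀.eq_empty_or_nonempty with rfl | hne
    · exact ⟨fun _ => univ, fun _ => univ_mem, fun z _ q hq => absurd hq (by simp)⟩
    haveI : Nonempty C₀ := hne.to_subtype
    haveI : Countable C₀ := hc.to_subtype
    choose Oq hOq hOq' using fun q : C₀ => (q : PP K).gd
    obtain ⟨e, he⟩ := exists_surjective_nat (C₀ × ℕ)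
    refine ⟨fun k => Oq (e k).1 (e k).2, fun k => hOq _ _, fun z hz q hq => ?_⟩
    refine hOq' ⟨q, hq⟩ z fun k => ?_
    obtain ⟨i, hi⟩ := he (⟨q, hq⟩, k)
    have h5 : z ∈ Oq (e i).1 (e i).2 := hz i
    rw [hi] at h5
    exact h5
  -- a non-trivial element
  obtain ⟨z, hzO, hz1⟩ : ∃ z : K, (∀ k, z ∈ O k) ∧ z ≠ 1 := by
    by_contra hcon
    push Not at hcon
    exact hnot ⟨O, hO, fun z _ hz => hcon z hz⟩
  obtain ⟨V, hV, hVO⟩ := exists_nice (precompact_of_compact (K := K)) (fun k => O k ∩ {z}ᶜ)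
    (fun k => inter_mem (hO k) (isOpen_compl_singleton.mem_nhds (by simpa using hz1.symm)))
  have hcore : ∀ q ∈ C₀, hV.core < q.N := by
    intro q hq
    refine lt_of_le_of_ne (fun w hw => hON w (fun k => (hVO k (hw k)).1) q hq) ?_
    intro h
    have : z ∈ hV.core := by rw [h]; exact hON z hzO q hq
    exact (hVO 0 (this 0)).2 rfl
  -- a countable dense set
  choose F hF using fun k => precompact_of_compact (K := K) (V k) (hV.nhds k)
  have hDc : (⋃ k, (F k : Set K)).Countable := countable_iUnion fun k => (F k).countable_toSet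
  obtain ⟨d, hd⟩ : ∃ d : ℕ → K, ∀ g k, ∃ j, (d j)⁻¹ * g ∈ V k := by
    have hne : (⋃ k, (F k : Set K)).Nonempty := by
      obtain ⟨g, hg, _⟩ := hF 0 1
      exact ⟨g, mem_iUnion.2 ⟨0, hg⟩⟩
    obtain ⟨d, hd⟩ := hDc.exists_eq_range hne
    refine ⟨d, fun g k => ?_⟩
    obtain ⟨f, hf, hg⟩ := hF k g
    have hf' : f ∈ Set.range d := by rw [← hd]; exact mem_iUnion.2 ⟨k, hf⟩
    obtain ⟨j, rfl⟩ := hf'
    refine ⟨j, ?_⟩
    rwa [mem_smul_set_iff_inv_smul_mem, smul_eq_mul] at hg
  -- representatives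
  obtain ⟨e, he⟩ := exists_surjective_nat (ℕ × ℕ)
  let N' : Set K := {w : K | ∀ q ∈ C₀, w ∈ q.N}
  obtain ⟨c, hc1, hc2⟩ := sdr
    (fun i => {n | ∃ v ∈ V (e (Nat.unpair i).1).2, ∃ m ∈ N', y n = d (e (Nat.unpair i).1).1 * v * m})
    (fun i => hsd _ _ (hV.nhds _))
  choose v hv m hm hyc using hc2
  let x' : ℕ → K := fun n => if h : ∃ i, c i = n then d (e (Nat.unpair h.choose).1).1 * v h.choose
    else y n
  have hx'c : ∀ i, x' (c i) = d (e (Nat.unpair i).1).1 * v i := by
    intro i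
    have h : ∃ i', c i' = c i := ⟨i, rfl⟩
    have h2 : h.choose = i := hc1.injective h.choose_spec
    simp only [x', dif_pos h, h2]
  have hx'y : ∀ n, (y n)⁻¹ * x' n ∈ N' := by
    intro n
    by_cases h : ∃ i, c i = n
    · obtain ⟨i, rfl⟩ := h
      rw [hx'c, hyc i]
      intro q hq
      have := q.N.inv_mem (hm i q hq)
      rw [show (d (e (Nat.unpair i).1).1 * v i * m i)⁻¹ * (d (e (Nat.unpair i).1).1 * v i) =
        (m i)⁻¹ by group]
      exact this
    · simp only [x', dif_neg h]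
      intro q _
      rw [inv_mul_cancel]
      exact one_mem _
  refine ⟨⟨hV.core, x', hV.core_closed, ⟨V, hV.nhds, fun z hz => hz⟩, ?_⟩, ?_⟩
  · -- strong density
    intro g U hU
    obtain ⟨U', hUU, hU'o, hU'1⟩ := mem_nhds_iff.1 hU
    obtain ⟨k, hk⟩ := hV.exists_sub (U' * (hV.core : Set K)) (by
      intro w hw
      exact (hU'o.mul_right).mem_nhds ⟨1, hU'1, w, hw, one_mul w⟩)
    obtain ⟨j, hj⟩ := hd g (k + 2)
    obtain ⟨i₀, hi₀⟩ := he (j, k + 2)
    have hinf : (Set.range fun l : ℕ => c (Nat.pair i₀ l)).Infinite := by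
      apply Set.infinite_range_of_injective
      intro l l' hl
      have := hc1.injective hl
      rw [Nat.pair_eq_pair] at this
      exact this.2
    refine hinf.mono ?_
    rintro _ ⟨l, rfl⟩
    have h1 := hx'c (Nat.pair i₀ l)
    have h2 := hv (Nat.pair i₀ l)
    rw [Nat.unpair_pair, hi₀] at h1 h2
    have h3 : ((d j)⁻¹ * g)⁻¹ * v (Nat.pair i₀ l) ∈ V k :=
      hV.mul k _ (hV.inv (k + 1) _ hj) _ (hV.sub (k + 1) h2)
    obtain ⟨u, hu, w, hw, huw⟩ := hk h3
    refine ⟨u, hUU hu, w, hw, ?_⟩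
    have h4 : u * w = ((d j)⁻¹ * g)⁻¹ * v (Nat.pair i₀ l) := huw
    show x' (c (Nat.pair i₀ l)) = g * u * w
    rw [h1, mul_assoc g, h4]
    group
  · intro q hq
    refine ⟨hcore q hq, fun n => ?_⟩
    have := q.N.mul_mem (hy q hq n) (hx'y n q hq)
    rwa [show (q.x n)⁻¹ * y n * ((y n)⁻¹ * x' n) = (q.x n)⁻¹ * x' n by group] at this

/-- the maximal chain has no countable coinitial part -/
theorem exists_below [T2Space K] (hnot : ¬ CP (Set.univ : Set K)) (C : Set (PP K))
    (hC : IsMaxChain rr C) (C₀ : Set (PP K)) (hsub : C₀ ⊆ C) (hc : C₀.Countable) :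
    ∃ p ∈ C, ∀ q ∈ C₀, rr q p := by
  by_contra hcon
  push Not at hcon
  obtain ⟨p, hp⟩ := ext hnot C₀ hc (hC.1.mono hsub)
  have hall : ∀ q ∈ C, rr q p := by
    intro q hq
    obtain ⟨q', hq', hne⟩ := hcon q hq
    by_cases h : q' = q
    · rw [← h]; exact hp q' hq'
    · rcases hC.1 (hsub hq') hq h with h1 | h1
      · exact absurd h1 hne
      · exact rr_trans h1 (hp q' hq')
  have hins : IsChain rr (insert p C) := hC.1.insert fun b hb _ => Or.inr (hall b hb)
  have hpC : p ∈ C := by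
    have := hC.2 hins (subset_insert _ _)
    rw [this]
    exact mem_insert _ _
  obtain ⟨q, hq, hne⟩ := hcon p hpC
  exact hne (hp q hq)

/-- a countable set whose closed subgroup has no `G_δ` identity -/
theorem exists_seq [T2Space K] (hnot : ¬ CP (Set.univ : Set K)) :
    ∃ y : ℕ → K, ¬ CP (closure (Subgroup.closure (Set.range y) : Set K)) := by
  obtain ⟨C, hC⟩ : ∃ C : Set (PP K), IsMaxChain rr C := ⟨_, maxChain_spec⟩
  obtain ⟨y, hy⟩ := coherent C hC.1
  have hsd := sd_inf C hC.1 y hy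
  refine ⟨y, fun hcp => ?_⟩
  obtain ⟨O, hO, hO1⟩ := hcp
  let M : Subgroup K := (Subgroup.closure (Set.range y)).topologicalClosure
  have hMc : IsClosed (M : Set K) := Subgroup.isClosed_topologicalClosure _
  have hM : (M : Set K) = closure (Subgroup.closure (Set.range y) : Set K) := rfl
  have hyM : ∀ n, y n ∈ M := fun n => subset_closure (Subgroup.subset_closure ⟨n, rfl⟩)
  -- `M N = K`
  have hMN : ∀ q ∈ C, ∀ g : K, ∃ a ∈ M, ∃ b ∈ q.N, g = a * b := by
    intro q hq g
    have hcomp : IsCompact ((M : Set K) * (q.N : Set K)) := hMc.isCompact.mul q.closed.isCompact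
    have hcl := hcomp.isClosed
    have hg : g ∈ closure ((M : Set K) * (q.N : Set K)) := by
      rw [mem_closure_iff_nhds]
      intro W hW
      have hW' : (fun v => g * v) ⁻¹' W ∈ 𝓝 (1 : K) := by
        apply (continuous_const.mul continuous_id).continuousAt.preimage_mem_nhds
        simpa using hW
      obtain ⟨n, v, hv, m, hm, hx⟩ := (hsd g _ hW').nonempty
      refine ⟨g * v, hv, y n, hyM n, m⁻¹, q.N.inv_mem (hm q hq), ?_⟩
      show y n * m⁻¹ = g * v
      rw [hx]
      group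
    rw [hcl.closure_eq] at hg
    obtain ⟨a, ha, b, hb, hab⟩ := hg
    exact ⟨a, ha, b, hb, hab.symm⟩
  obtain ⟨V, hV, hVO⟩ := exists_nice (precompact_of_compact (K := K)) O hO
  have hV1 : ∀ x ∈ (M : Set K), (∀ k, x ∈ V k) → x = 1 := fun x hx hxV =>
    hO1 x hx fun k => hVO k (hxV k)
  -- the limit of the traces on `M`
  let L : Subgroup K := M ⊓ ⨅ q ∈ C, q.N
  have hL : ∀ x, x ∈ L ↔ x ∈ M ∧ ∀ q ∈ C, x ∈ q.N := by
    intro x
    simp only [L, Subgroup.mem_inf, Subgroup.mem_iInf]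
  have hLc : IsClosed (L : Set K) := by
    have : (L : Set K) = (M : Set K) ∩ ⋂ q ∈ C, (q.N : Set K) := by
      ext x
      simp only [SetLike.mem_coe, hL, mem_inter_iff, mem_iInter]
    rw [this]
    exact hMc.inter (isClosed_biInter fun q _ => q.closed)
  have hCne : C.Nonempty := by
    obtain ⟨p, hp, _⟩ := exists_below hnot C hC ∅ (empty_subset _) countable_empty
    exact ⟨p, hp⟩
  haveI : Nonempty C := hCne.to_subtype
  have hk : ∀ k, ∃ q : C, (M : Set K) ∩ ((q : PP K).N : Set K) ⊆ (L : Set K) * V k := by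
    intro k
    have hVk : interior (V k) ∈ 𝓝 (1 : K) := interior_mem_nhds.2 (hV.nhds k)
    obtain ⟨q, hq⟩ := exists_subset_nhds_of_isCompact'
      (V := fun q : C => (M : Set K) ∩ ((q : PP K).N : Set K))
      (by
        intro p q
        by_cases hpq : p = q
        · subst hpq
          exact ⟨p, subset_rfl, subset_rfl⟩
        · rcases hC.1 p.2 q.2 (fun h => hpq (Subtype.ext h)) with h | h
          · exact ⟨q, inter_subset_inter_right _ h.1.le, subset_rfl⟩
          · exact ⟨p, subset_rfl, inter_subset_inter_right _ h.1.le⟩)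
      (fun q => (hMc.inter (q : PP K).closed).isCompact) (fun q => hMc.inter (q : PP K).closed)
      (U := (L : Set K) * interior (V k)) (by
        intro x hx
        refine (isOpen_interior.mul_left).mem_nhds
          ⟨x, (hL x).2 ⟨?_, ?_⟩, 1, mem_of_mem_nhds hVk, mul_one x⟩
        · exact (mem_iInter.1 hx (Classical.arbitrary C)).1
        · intro q hq
          exact (mem_iInter.1 hx ⟨q, hq⟩).2)
    exact ⟨q, hq.trans (Set.mul_subset_mul_left interior_subset)⟩
  choose q hq using hk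
  obtain ⟨p, hpC, hp⟩ := exists_below hnot C hC (Set.range fun k => (q k : PP K))
    (by rintro _ ⟨k, rfl⟩; exact (q k).2) (Set.countable_range _)
  -- the trace of `p.N` is already `L`
  have hpL : ∀ x ∈ M, x ∈ p.N → x ∈ L := by
    intro x hxM hxp
    by_contra hxL
    -- a neighbourhood `W` of `1` with `x ∉ L W`
    have hopen : IsOpen ((fun w : K => x * w⁻¹) ⁻¹' (L : Set K)ᶜ) :=
      hLc.isOpen_compl.preimage (continuous_const.mul continuous_inv)
    have hW : (fun w : K => x * w⁻¹) ⁻¹' (L : Set K)ᶜ ∈ 𝓝 (1 : K) := by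
      apply hopen.mem_nhds
      simpa using hxL
    obtain ⟨k, hk⟩ := hV.exists_sub' hMc hV1 _ hW
    have hxq : x ∈ ((q k : PP K).N : Set K) := (hp _ ⟨k, rfl⟩).1.le hxp
    obtain ⟨l, hl, v, hv, hlv⟩ := hq k ⟨hxM, hxq⟩
    have hlv' : l * v = x := hlv
    have hvM : v ∈ (M : Set K) := by
      have h1 : v = l⁻¹ * x := by rw [← hlv']; group
      rw [h1]
      exact M.mul_mem (M.inv_mem ((hL l).1 hl).1) hxM
    have h2 := hk ⟨hv, hvM⟩
    apply h2
    have h3 : x * v⁻¹ = l := by rw [← hlv']; group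
    show x * v⁻¹ ∈ (L : Set K)
    rw [h3]
    exact hl
  -- one more step
  obtain ⟨p', hp'C, hp'⟩ := exists_below hnot C hC {p} (by simpa using hpC) (countable_singleton p)
  have hlt := (hp' p rfl).1
  obtain ⟨g, hg, hg'⟩ := SetLike.exists_of_lt hlt
  obtain ⟨a, ha, b, hb, hab⟩ := hMN p' hp'C g
  have hap : a ∈ p.N := by
    have h1 : a = g * b⁻¹ := by rw [hab]; group
    rw [h1]
    exact p.N.mul_mem hg (p.N.inv_mem (hlt.le hb))
  have haL := hpL a ha hap
  apply hg'
  rw [hab]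
  exact p'.N.mul_mem (((hL a).1 haL).2 p' hp'C) hb

end

end Pool.Agent.H241R3.HM
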