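import Pool.Agent.H241R3.HMB

set_option autoImplicit false
set_option linter.style.haveILetI false

open Filter Topology Set
open scoped Pointwise

namespace Pool.Agent.H241R3.HM

open Pool.Agent.H241R3.Nil

/-- a compact group whose identity is not a `G_δ` has a countable subgroup that is not minimal -/
theorem compact_case {K : Type} [Group K] [TopologicalSpace K] [IsTopologicalGroup K]
    [CompactSpace K] [T2Space K] (hnot : ¬ CP (Set.univ : Set K)) :
    ∃ (H : Subgroup K) (Q : Type) (_ : Group Q) (_ : TopologicalSpace Q)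
      (_ : IsTopologicalGroup Q) (_ : T2Space Q) (φ : H →* Q),
      Continuous φ ∧ Function.Injective φ ∧ ¬ IsInducing φ := by
  classical
  obtain ⟨y, hy⟩ := exists_seq hnot
  let H : Subgroup K := Subgroup.closure (Set.range y)
  have hHc : Countable H := by
    have h1 : (FreeGroup.lift y).range = H := FreeGroup.range_lift_eq_closure
    rw [← h1]
    exact (FreeGroup.lift y).rangeRestrict_surjective.countable
  -- neighbourhoods missing the elements of `H`
  obtain ⟨e, he⟩ := exists_surjective_nat H
  obtain ⟨V, hV, hVO⟩ := exists_nice (precompact_of_compact (K := K))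
    (fun k => if (e k : K) = 1 then Set.univ else {(e k : K)}ᶜ) (fun k => by
      split_ifs with h
      · exact univ_mem
      · exact isOpen_compl_singleton.mem_nhds (by simpa using fun h' => h h'.symm))
  have hVH : ∀ h ∈ H, h ∈ hV.core → h = 1 := by
    intro h hh hhV
    obtain ⟨k, hk⟩ := he ⟨h, hh⟩
    have h1 : (e k : K) = h := by rw [hk]
    have h2 := hVO k (hhV k)
    by_contra hne
    rw [h1, if_neg hne] at h2
    exact h2 rfl
  haveI : hV.core.Normal := hV.core_normal
  haveI : IsClosed (hV.core : Set K) := hV.core_closed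
  -- a non-trivial element of the closure
  obtain ⟨n, hnH, hnV, hn1⟩ : ∃ n ∈ closure (H : Set K), (∀ k, n ∈ V k) ∧ n ≠ 1 := by
    by_contra hcon
    push Not at hcon
    exact hy ⟨V, hV.nhds, fun z hz hzV => hcon z hz hzV⟩
  let φ : H →* K ⧸ hV.core := (QuotientGroup.mk' hV.core).comp H.subtype
  refine ⟨H, K ⧸ hV.core, inferInstance, inferInstance, inferInstance, inferInstance, φ, ?_, ?_, ?_⟩
  · exact continuous_quot_mk.comp continuous_subtype_val
  · rw [injective_iff_map_eq_one]
    intro h hh
    have h1 : (h : K) ∈ hV.core := (QuotientGroup.eq_one_iff _).1 hh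
    exact Subtype.ext (hVH h h.2 h1)
  · intro hind
    -- a closed neighbourhood of 1 missing `n`
    obtain ⟨W, hW, hWc, hnW⟩ : ∃ W ∈ 𝓝 (1 : K), IsClosed W ∧ n ∉ W := by
      have h1 : ({n}ᶜ : Set K) ∈ 𝓝 (1 : K) :=
        isOpen_compl_singleton.mem_nhds (by simpa using hn1.symm)
      obtain ⟨W, hW, hWc, hWn⟩ := exists_mem_nhds_isClosed_subset h1
      exact ⟨W, hW, hWc, fun h => hWn h rfl⟩
    have h1 : (Subtype.val ⁻¹' W : Set H) ∈ 𝓝 (1 : H) :=
      continuous_subtype_val.continuousAt.preimage_mem_nhds hW
    rw [hind.nhds_eq_comap, map_one, mem_comap] at h1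
    obtain ⟨t, ht, htW⟩ := h1
    -- translate by `n`
    have h3 : (QuotientGroup.mk' hV.core) ⁻¹' t ∈ 𝓝 n := by
      have hc : Continuous (QuotientGroup.mk' hV.core) := continuous_quot_mk
      apply hc.continuousAt.preimage_mem_nhds
      have hn : (QuotientGroup.mk' hV.core) n = 1 := (QuotientGroup.eq_one_iff _).2 hnV
      rw [hn]
      exact ht
    apply hnW
    rw [← hWc.closure_eq]
    rw [mem_closure_iff_nhds]
    intro U hU
    obtain ⟨z, ⟨hzt, hzU⟩, hzH⟩ := mem_closure_iff_nhds.1 hnH _ (inter_mem h3 hU)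
    exact ⟨z, hzU, htW (show φ ⟨z, hzH⟩ ∈ t from hzt)⟩

/-- minimality gives inducing homomorphisms -/
theorem inducing_of_minimal {H : Type} [Group H] [t : TopologicalSpace H] [IsTopologicalGroup H]
    (hm : Minimal H) {Q : Type} [Group Q] [TopologicalSpace Q] [IsTopologicalGroup Q] [T2Space Q]
    (φ : H →* Q) (hc : Continuous φ) (hi : Function.Injective φ) : IsInducing φ := by
  constructor
  symm
  refine hm _ (continuous_iff_le_induced.1 hc) (topologicalGroup_induced φ) ?_
  letI : TopologicalSpace H := TopologicalSpace.induced φ inferInstance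
  exact T2Space.of_injective_continuous hi continuous_induced_dom

/-- compact subgroups of hereditarily minimal groups are metrizable -/
theorem cp_compact {G : Type} [Group G] [TopologicalSpace G] [IsTopologicalGroup G] [T2Space G]
    (hm : ∀ H : Subgroup G, Minimal H) (K : Subgroup G) (hK : IsCompact (K : Set G)) :
    CP (Set.univ : Set K) := by
  by_contra hnot
  haveI : CompactSpace K := isCompact_iff_compactSpace.1 hK
  obtain ⟨H, Q, _, _, _, _, φ, hφc, hφi, hφn⟩ := compact_case hnot
  apply hφn
  let e : H ≃* (H.map K.subtype) := H.equivMapOfInjective K.subtype K.subtype_injective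
  have he : ∀ h : H, ((e h : H.map K.subtype) : G) = ((h : K) : G) := fun h => rfl
  have hec : Continuous e :=
    (continuous_subtype_val.comp continuous_subtype_val).subtype_mk _
  have hes : Continuous e.symm := by
    have h1 : ∀ g : H.map K.subtype, (((e.symm g : H) : K) : G) = g := by
      intro g
      rw [← he, e.apply_symm_apply]
    rw [continuous_induced_rng, continuous_induced_rng]
    have : (Subtype.val ∘ Subtype.val ∘ e.symm : H.map K.subtype → G) = Subtype.val := by
      funext g
      exact h1 g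
    rw [this]
    exact continuous_subtype_val
  have h2 : IsInducing (φ.comp e.symm.toMonoidHom) := by
    apply inducing_of_minimal (hm _)
    · exact hφc.comp hes
    · exact hφi.comp e.symm.injective
  have h3 : IsInducing e := by
    have : IsHomeomorph e := by
      rw [isHomeomorph_iff_exists_homeomorph]
      exact ⟨⟨e.toEquiv, hec, hes⟩, rfl⟩
    exact this.isInducing
  have h4 : (φ : H → Q) = (φ.comp e.symm.toMonoidHom) ∘ e := by
    funext h
    show φ h = φ (e.symm (e h))
    rw [e.symm_apply_apply]
  rw [h4]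
  exact h2.comp h3

/-- the main theorem -/
theorem main (G : Type) [Group G] [TopologicalSpace G] [IsTopologicalGroup G] [T2Space G]
    [LocallyCompactSpace G] (hm : ∀ H : Subgroup G, Minimal H) :
    TopologicalSpace.MetrizableSpace G := by
  obtain ⟨C, hC, hC1⟩ := exists_compact_mem_nhds (1 : G)
  -- a compact subgroup of type `G_δ`
  have step : ∀ A ∈ 𝓝 (1 : G), ∃ V ∈ 𝓝 (1 : G),
      V ⊆ A ∧ (∀ a ∈ V, ∀ b ∈ V, a * b ∈ A) ∧ (∀ a ∈ V, a⁻¹ ∈ A) := by
    intro A hA
    obtain ⟨V1, hV1, hV1A⟩ := exists_nhds_one_split hA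
    refine ⟨V1 ∩ A⁻¹ ∩ A, inter_mem (inter_mem hV1 (inv_mem_nhds_one G hA)) hA, ?_, ?_, ?_⟩
    · exact fun v hv => hv.2
    · exact fun a ha b hb => hV1A a ha.1.1 b hb.1.1
    · intro a ha
      have h1 : a ∈ A⁻¹ := ha.1.2
      simpa using h1
  choose! nx hnx1 hnx2 hnx3 hnx4 using step
  let V : ℕ → Set G := fun n => Nat.rec (nx C) (fun _ A => nx A) n
  have hVs : ∀ n, V (n + 1) = nx (V n) := fun n => rfl
  have hV : ∀ n, V n ∈ 𝓝 (1 : G) := by
    intro n
    induction n with
    | zero => exact hnx1 _ hC1
    | succ n ih => rw [hVs]; exact hnx1 _ ih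
  have hV2 : ∀ n, V (n + 1) ⊆ V n := fun n => hnx2 _ (hV n)
  have hV3 : ∀ n, ∀ a ∈ V (n + 1), ∀ b ∈ V (n + 1), a * b ∈ V n := fun n => hnx3 _ (hV n)
  have hV4 : ∀ n, ∀ a ∈ V (n + 1), a⁻¹ ∈ V n := fun n => hnx4 _ (hV n)
  let K : Subgroup G :=
    { carrier := {x | ∀ n, x ∈ V n}
      one_mem' := fun n => mem_of_mem_nhds (hV n)
      mul_mem' := fun ha hb n => hV3 n _ (ha (n + 1)) _ (hb (n + 1))
      inv_mem' := fun ha n => hV4 n _ (ha (n + 1)) }
  have hcl : ∀ n, closure (V (n + 1)) ⊆ V n := by
    intro k x hx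
    have h1 : (fun y => x * y) '' V (k + 2) ∈ 𝓝 x := by
      have := (Homeomorph.mulLeft x).isOpenMap.image_mem_nhds (hV (k + 2))
      simpa using this
    obtain ⟨_, ⟨v, hv, rfl⟩, hy⟩ := mem_closure_iff_nhds.1 hx _ h1
    have h2 := hV3 k _ hy _ (hV4 (k + 1) v hv)
    simpa using h2
  have hKc : IsClosed (K : Set G) := by
    have : (K : Set G) = ⋂ k, closure (V k) := by
      ext x
      constructor
      · intro hx
        exact mem_iInter.2 fun k => subset_closure (hx k)
      · intro hx k
        exact hcl k (mem_iInter.1 hx (k + 1))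
    rw [this]
    exact isClosed_iInter fun k => isClosed_closure
  have hK : IsCompact (K : Set G) :=
    hC.of_isClosed_subset hKc fun x hx => hnx2 _ hC1 (hx 0)
  -- so the identity is a `G_δ`
  obtain ⟨W, hW, hW1⟩ := cp_compact hm K hK
  choose U hU hUW using fun n => mem_nhds_induced (Subtype.val : K → G) 1 (W n) |>.1 (hW n)
  have hdelta : ∀ z : G, (∀ n, z ∈ V n) → (∀ n, z ∈ U n) → z = 1 := by
    intro z hzV hzU
    have := hW1 ⟨z, hzV⟩ (mem_univ _) fun n => hUW n (hzU n)
    exact congrArg Subtype.val this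
  -- countable base at the identity
  apply metrizable_of
  -- compact neighbourhoods with trivial intersection
  have step2 : ∀ A ∈ 𝓝 (1 : G), ∃ D ∈ 𝓝 (1 : G), IsClosed D ∧ D ⊆ A := fun A hA => by
    obtain ⟨D, hD, hDc, hDA⟩ := exists_mem_nhds_isClosed_subset hA
    exact ⟨D, hD, hDc, hDA⟩
  choose! cl hcl1 hcl2 hcl3 using step2
  let D : ℕ → Set G := fun n => C ∩ ⋂ i ∈ Finset.range (n + 1), cl (V i ∩ U i)
  have hVU : ∀ i, V i ∩ U i ∈ 𝓝 (1 : G) := fun i => inter_mem (hV i) (hU i)
  have hD : ∀ n, D n ∈ 𝓝 (1 : G) := fun n => by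
    refine inter_mem hC1 ?_
    rw [Filter.biInter_finset_mem]
    exact fun i _ => hcl1 _ (hVU i)
  have hDc : ∀ n, IsClosed (D n) := fun n =>
    hC.isClosed.inter (isClosed_biInter fun i _ => hcl2 _ (hVU i))
  have hDk : ∀ n, IsCompact (D n) := fun n => hC.of_isClosed_subset (hDc n) inter_subset_left
  have hanti : Antitone D := by
    intro m n hmn
    refine inter_subset_inter_right _ ?_
    intro x hx
    simp only [mem_iInter, Finset.mem_range] at hx ⊢
    exact fun i hi => hx i (by omega)
  have hbasis : (𝓝 (1 : G)).HasBasis (fun _ : ℕ => True) D := by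
    constructor
    intro s
    constructor
    · intro hs
      obtain ⟨n, hn⟩ := exists_subset_nhds_of_isCompact' (V := D)
        (directed_of_isDirected_le fun i j hij => hanti hij) hDk hDc (U := s) (by
          intro x hx
          have : x = 1 := by
            apply hdelta
            · intro n
              have h1 := (mem_iInter.1 hx n).2
              simp only [mem_iInter, Finset.mem_range] at h1
              exact (hcl3 _ (hVU n) (h1 n (by omega))).1
            · intro n
              have h1 := (mem_iInter.1 hx n).2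
              simp only [mem_iInter, Finset.mem_range] at h1
              exact (hcl3 _ (hVU n) (h1 n (by omega))).2
          rw [this]
          exact hs)
      exact ⟨n, trivial, hn⟩
    · rintro ⟨n, _, hn⟩
      exact mem_of_superset (hD n) hn
  exact hbasis.isCountablyGenerated

end Pool.Agent.H241R3.HM
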