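import Mathlib

set_option autoImplicit false

open Filter Topology Set
open scoped Pointwise

namespace Pool.Agent.H241R3.Nil

/-- precompactness, as in the frozen statement -/
def Precompact (G : Type) [Group G] [TopologicalSpace G] : Prop :=
  ∀ U ∈ nhds (1 : G), ∃ F : Finset G, ∀ x : G, ∃ g ∈ F, x ∈ g • U

/-- minimality, as in the frozen statement -/
def Minimal (G : Type) [Group G] [t : TopologicalSpace G] : Prop :=
  ∀ t' : TopologicalSpace G, t ≤ t' → @IsTopologicalGroup G t' _ → @T2Space G t' → t' = t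

/-- countable tightness, as in the frozen statement -/
def Tight (G : Type) [TopologicalSpace G] : Prop :=
  ∀ (A : Set G) (x : G), x ∈ closure A → ∃ B ⊆ A, B.Countable ∧ x ∈ closure B

/-- the identity is a `G_δ` in the subset `S` -/
def CP {G : Type} [Group G] [TopologicalSpace G] (S : Set G) : Prop :=
  ∃ W : ℕ → Set G, (∀ n, W n ∈ 𝓝 (1 : G)) ∧ ∀ z ∈ S, (∀ n, z ∈ W n) → z = 1

theorem le_of_nhds_one_le {G : Type} [Group G] (t t' : TopologicalSpace G)
    (ht : @IsTopologicalGroup G t _) (ht' : @IsTopologicalGroup G t' _)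
    (h : @nhds G t 1 ≤ @nhds G t' 1) : t ≤ t' := by
  refine le_of_nhds_le_nhds fun x => ?_
  have h1 : Filter.map (x * ·) (@nhds G t 1) = @nhds G t x := by
    letI := t
    haveI := ht
    exact map_mul_left_nhds_one x
  have h2 : Filter.map (x * ·) (@nhds G t' 1) = @nhds G t' x := by
    letI := t'
    haveI := ht'
    exact map_mul_left_nhds_one x
  rw [← h1, ← h2]
  exact Filter.map_mono h

section
variable {G : Type} [Group G] [TopologicalSpace G] [IsTopologicalGroup G]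

theorem sin (hp : Precompact G) {U : Set G} (hU : U ∈ 𝓝 (1 : G)) :
    ∃ V ∈ 𝓝 (1 : G), ∀ v ∈ V, ∀ g : G, g * v * g⁻¹ ∈ U := by
  have hc : ContinuousAt (fun p : G × G × G => p.1⁻¹ * p.2.1 * p.2.2) (1, 1, 1) := by fun_prop
  have hc' : Tendsto (fun p : G × G × G => p.1⁻¹ * p.2.1 * p.2.2) (𝓝 (1, 1, 1)) (𝓝 1) := by
    have := hc.tendsto
    simpa using this
  have h1 := hc' hU
  rw [nhds_prod_eq, nhds_prod_eq] at h1
  obtain ⟨A, hA, B, hB, hAB⟩ := Filter.mem_prod_iff.1 (Filter.mem_map.1 h1)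
  obtain ⟨B1, hB1, B2, hB2, hB12⟩ := Filter.mem_prod_iff.1 hB
  let U1 := A ∩ (B1 ∩ B2)
  have hU1 : U1 ∈ 𝓝 (1 : G) := inter_mem hA (inter_mem hB1 hB2)
  have key : ∀ a ∈ U1, ∀ b ∈ U1, ∀ c ∈ U1, a⁻¹ * b * c ∈ U := by
    intro a ha b hb c hc
    exact hAB (show (a, b, c) ∈ A ×ˢ B from ⟨ha.1, hB12 ⟨hb.2.1, hc.2.2⟩⟩)
  obtain ⟨F, hF⟩ := hp U1 hU1
  refine ⟨⋂ g ∈ F, (fun v => g⁻¹ * v * g) ⁻¹' U1, ?_, ?_⟩
  · rw [Filter.biInter_finset_mem]
    intro g _
    have : ContinuousAt (fun v : G => g⁻¹ * v * g) 1 := by fun_prop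
    apply this.preimage_mem_nhds
    simpa using hU1
  · intro v hv x
    obtain ⟨g, hg, hx⟩ := hF x⁻¹
    rw [mem_smul_set_iff_inv_smul_mem, smul_eq_mul] at hx
    have hv' : g⁻¹ * v * g ∈ U1 := by
      have := Set.mem_iInter₂.1 hv g hg
      exact this
    have := key _ hx _ hv' _ hx
    convert this using 1
    group

theorem comm_nhds (hp : Precompact G) {W : Set G} (hW : W ∈ 𝓝 (1 : G)) :
    ∃ V ∈ 𝓝 (1 : G), ∀ v ∈ V, ∀ g : G, v * g * v⁻¹ * g⁻¹ ∈ W := by
  obtain ⟨U, hU, hUW⟩ := exists_nhds_split_inv hW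
  obtain ⟨V, hV, hVU⟩ := sin hp hU
  refine ⟨V ∩ U, inter_mem hV hU, fun v hv g => ?_⟩
  have := hUW v hv.2 (g * v * g⁻¹) (hVU v hv.1 g)
  rw [div_eq_mul_inv] at this
  convert this using 1
  group

theorem cp_upper (hp : Precompact G) (h1 : CP (Subgroup.center G : Set G)) (n : ℕ) :
    CP (Subgroup.upperCentralSeries G n : Set G) := by
  induction n with
  | zero =>
    refine ⟨fun _ => Set.univ, fun _ => univ_mem, fun z hz _ => ?_⟩
    simpa using hz
  | succ n ih =>
    obtain ⟨W, hW, hWz⟩ := ih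
    obtain ⟨W', hW', hWz'⟩ := h1
    choose V hV hVW using fun n => comm_nhds hp (hW n)
    refine ⟨fun n => V n ∩ W' n, fun n => inter_mem (hV n) (hW' n), fun z hz hzn => ?_⟩
    have hz1 : ∀ g : G, z * g * z⁻¹ * g⁻¹ = 1 := by
      intro g
      refine hWz _ ?_ (fun n => hVW n z (hzn n).1 g)
      exact (Subgroup.mem_upperCentralSeries_succ_iff.1 hz) g
    have hzc : z ∈ Subgroup.center G := by
      rw [Subgroup.mem_center_iff]
      intro g
      have := hz1 g
      rw [mul_inv_eq_one, mul_inv_eq_iff_eq_mul] at this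
      exact this.symm
    exact hWz' z hzc fun n => (hzn n).2

/-- a minimal group with small invariant neighbourhoods and `G_δ` identity has a countable base at 1 -/
theorem countable_nhds [T2Space G] (hp : Precompact G) (hm : Minimal G)
    (hcp : CP (Set.univ : Set G)) : (𝓝 (1 : G)).IsCountablyGenerated := by
  obtain ⟨W, hW, hWz⟩ := hcp
  -- one step
  have step : ∀ (A B : Set G), A ∈ 𝓝 (1 : G) → B ∈ 𝓝 (1 : G) → ∃ V ∈ 𝓝 (1 : G),
      V ⊆ A ∩ B ∧ V * V ⊆ A ∧ V⁻¹ ⊆ A ∧ ∀ v ∈ V, ∀ g : G, g * v * g⁻¹ ∈ A := by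
    intro A B hA hB
    obtain ⟨V1, hV1, hV1A⟩ := exists_nhds_one_split hA
    obtain ⟨V2, hV2, hV2A⟩ := sin hp hA
    refine ⟨V1 ∩ V2 ∩ A⁻¹ ∩ (A ∩ B), ?_, ?_, ?_, ?_, ?_⟩
    · exact inter_mem (inter_mem (inter_mem hV1 hV2) (inv_mem_nhds_one G hA)) (inter_mem hA hB)
    · exact fun v hv => hv.2
    · rintro _ ⟨v, hv, w, hw, rfl⟩
      exact hV1A v hv.1.1.1 w hw.1.1.1
    · intro v hv
      have h1 : v⁻¹ ∈ A⁻¹ := hv.1.2
      simpa using h1
    · intro v hv g
      exact hV2A v hv.1.1.2 g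
  choose! nx hnx1 hnx2 hnx3 hnx4 hnx5 using step
  let V : ℕ → Set G := fun n => Nat.rec (nx (W 0) (W 0)) (fun n A => nx A (W (n + 1))) n
  have hV0 : V 0 = nx (W 0) (W 0) := rfl
  have hVs : ∀ n, V (n + 1) = nx (V n) (W (n + 1)) := fun n => rfl
  have hV : ∀ n, V n ∈ 𝓝 (1 : G) := by
    intro n
    induction n with
    | zero => exact hnx1 _ _ (hW 0) (hW 0)
    | succ n ih => rw [hVs]; exact hnx1 _ _ ih (hW (n + 1))
  have hVanti : Antitone V := antitone_nat_of_succ_le fun n => by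
    rw [hVs]
    exact (hnx2 _ _ (hV n) (hW (n + 1))).trans inter_subset_left
  have hVW : ∀ n, V n ⊆ W n := by
    intro n
    cases n with
    | zero => exact (hnx2 _ _ (hW 0) (hW 0)).trans inter_subset_left
    | succ n => rw [hVs]; exact (hnx2 _ _ (hV n) (hW (n + 1))).trans inter_subset_right
  let B : GroupFilterBasis G :=
    { sets := Set.range V
      nonempty := ⟨V 0, 0, rfl⟩
      inter_sets := by
        rintro _ _ ⟨m, rfl⟩ ⟨n, rfl⟩
        exact ⟨V (max m n), ⟨_, rfl⟩, subset_inter (hVanti (le_max_left _ _))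
          (hVanti (le_max_right _ _))⟩
      one' := by
        rintro _ ⟨n, rfl⟩
        exact mem_of_mem_nhds (hV n)
      mul' := by
        rintro _ ⟨n, rfl⟩
        refine ⟨V (n + 1), ⟨n + 1, rfl⟩, ?_⟩
        rw [hVs]
        exact hnx3 _ _ (hV n) (hW (n + 1))
      inv' := by
        rintro _ ⟨n, rfl⟩
        refine ⟨V (n + 1), ⟨n + 1, rfl⟩, ?_⟩
        intro v hv
        rw [hVs] at hv
        exact hnx4 _ _ (hV n) (hW (n + 1)) (by simpa using hv)
      conj' := by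
        rintro x₀ _ ⟨n, rfl⟩
        refine ⟨V (n + 1), ⟨n + 1, rfl⟩, ?_⟩
        intro v hv
        rw [hVs] at hv
        exact hnx5 _ _ (hV n) (hW (n + 1)) v hv x₀ }
  have hBg : @IsTopologicalGroup G B.topology _ := B.isTopologicalGroup
  have hbasis : ∀ n, V n ∈ @nhds G B.topology 1 := fun n =>
    B.nhds_one_hasBasis.mem_of_mem (i := V n) ⟨n, rfl⟩
  have hle1 : 𝓝 (1 : G) ≤ @nhds G B.topology 1 := by
    intro s hs
    obtain ⟨_, ⟨n, rfl⟩, hn⟩ := B.nhds_one_hasBasis.mem_iff.1 hs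
    exact mem_of_superset (hV n) hn
  have hle : ‹TopologicalSpace G› ≤ B.topology :=
    le_of_nhds_one_le _ _ inferInstance hBg hle1
  have hT2 : @T2Space G B.topology := by
    refine @IsTopologicalGroup.t2Space_of_one_sep G B.topology _ hBg ?_
    intro x hx
    by_contra hcon
    push Not at hcon
    exact hx (hWz x (Set.mem_univ x) fun n => hVW n (hcon (V n) (hbasis n)))
  have heq : B.topology = ‹TopologicalSpace G› := hm _ hle hBg hT2
  have hb : (𝓝 (1 : G)).HasBasis (fun _ : ℕ => True) V := by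
    constructor
    intro s
    constructor
    · intro hs
      rw [← heq] at hs
      obtain ⟨_, ⟨n, rfl⟩, hn⟩ := B.nhds_one_hasBasis.mem_iff.1 hs
      exact ⟨n, trivial, hn⟩
    · rintro ⟨n, _, hn⟩
      exact mem_of_superset (hV n) hn
  exact hb.isCountablyGenerated

theorem metrizable_of [T2Space G] (h : (𝓝 (1 : G)).IsCountablyGenerated) :
    TopologicalSpace.MetrizableSpace G := by
  let _ : UniformSpace G := IsTopologicalGroup.rightUniformSpace G
  have h1 : (uniformity G).IsCountablyGenerated := by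
    rw [uniformity_eq_comap_nhds_one']
    infer_instance
  have h2 : TopologicalSpace.PseudoMetrizableSpace G := UniformSpace.pseudoMetrizableSpace
  infer_instance

end

end Pool.Agent.H241R3.Nil
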