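import Pool.Agent.H241R3.NilA

set_option autoImplicit false
set_option linter.style.haveILetI false

open Filter Topology Set
open scoped Pointwise

namespace Pool.Agent.H241R3.Nil

section
variable {G : Type} [Group G] [TopologicalSpace G] [IsTopologicalGroup G]

theorem tight_subtype {X : Type} [TopologicalSpace X] (ht : Tight X) (s : Set X) : Tight s := by
  intro A x hx
  rw [closure_subtype] at hx
  obtain ⟨B, hBA, hBc, hxB⟩ := ht _ _ hx
  refine ⟨Subtype.val ⁻¹' B, ?_, hBc.preimage Subtype.val_injective, ?_⟩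
  · intro b hb
    obtain ⟨a, ha, hab⟩ := hBA hb
    rwa [← Subtype.ext hab]
  · rw [closure_subtype]
    have : Subtype.val '' (Subtype.val ⁻¹' B : Set s) = B := by
      rw [Set.image_preimage_eq_iff]
      intro b hb
      obtain ⟨a, _, hab⟩ := hBA hb
      exact ⟨a, hab⟩
    rwa [this]

theorem precompact_subgroup (hp : Precompact G) (H : Subgroup G) : Precompact H := by
  classical
  intro U hU
  obtain ⟨U', hU', hUU'⟩ := mem_nhds_induced (Subtype.val : H → G) 1 U |>.1 hU
  obtain ⟨V, hV, hVU⟩ := exists_nhds_split_inv (G := G) (s := U'⁻¹⁻¹) (by rw [inv_inv]; exact hU')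
  have hV' : V⁻¹ ∈ 𝓝 (1 : G) := inv_mem_nhds_one G hV
  obtain ⟨F, hF⟩ := hp V⁻¹ hV'
  -- choose representatives
  let F' : Finset H := F.image fun g => if h : ∃ z : H, (z : G) ∈ g • V⁻¹ then h.choose else 1
  refine ⟨F', fun z => ?_⟩
  obtain ⟨g, hg, hz⟩ := hF z
  have h : ∃ z : H, (z : G) ∈ g • V⁻¹ := ⟨z, hz⟩
  refine ⟨h.choose, ?_, ?_⟩
  · refine Finset.mem_image.2 ⟨g, hg, ?_⟩
    rw [dif_pos h]
  · have h2 := h.choose_spec
    rw [mem_smul_set_iff_inv_smul_mem, smul_eq_mul, Set.mem_inv] at hz h2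
    rw [mem_smul_set_iff_inv_smul_mem, smul_eq_mul]
    apply hUU'
    have h3 := hVU _ h2 _ hz
    rw [inv_inv, div_eq_mul_inv] at h3
    show ((h.choose⁻¹ * z : H) : G) ∈ U'
    convert h3 using 1
    push_cast
    group

theorem minimal_center [T2Space G] (hm : Minimal G) : Minimal (Subgroup.center G) := by
  intro σ hle hσg hσ2
  have hZc : IsClosed ((Subgroup.center G : Subgroup G) : Set G) := by
    have : ((Subgroup.center G : Subgroup G) : Set G) = ⋂ g : G, {z | g * z = z * g} := by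
      ext z
      simp [Subgroup.mem_center_iff]
    rw [this]
    exact isClosed_iInter fun g => isClosed_eq (by fun_prop) (by fun_prop)
  have hcomm : ∀ (z : Subgroup.center G) (g : G), g * z = z * g := fun z g =>
    Subgroup.mem_center_iff.1 z.2 g
  -- neighbourhoods for σ
  have hσt : ∀ V ∈ @nhds _ σ (1 : Subgroup.center G), ∃ U ∈ 𝓝 (1 : G),
      ∀ z : Subgroup.center G, (z : G) ∈ U → z ∈ V := by
    intro V hV
    have h1 : V ∈ @nhds _ (TopologicalSpace.induced (Subtype.val : Subgroup.center G → G)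
        inferInstance) (1 : Subgroup.center G) := _root_.nhds_mono hle hV
    obtain ⟨U, hU, hUV⟩ := mem_nhds_induced (Subtype.val : Subgroup.center G → G) 1 V |>.1 h1
    exact ⟨U, hU, fun z hz => hUV hz⟩
  have hsplit : ∀ V ∈ @nhds _ σ (1 : Subgroup.center G), ∃ V' ∈ @nhds _ σ (1 : Subgroup.center G),
      ∀ v ∈ V', ∀ w ∈ V', v * w ∈ V := by
    letI := σ
    haveI := hσg
    exact fun V hV => exists_nhds_one_split hV
  have hinv : ∀ V ∈ @nhds _ σ (1 : Subgroup.center G), V⁻¹ ∈ @nhds _ σ (1 : Subgroup.center G) := by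
    letI := σ
    haveI := hσg
    exact fun V hV => inv_mem_nhds_one _ hV
  have hmem1 : ∀ V ∈ @nhds _ σ (1 : Subgroup.center G), (1 : Subgroup.center G) ∈ V :=
    fun V hV => @mem_of_mem_nhds _ σ _ _ hV
  let B : GroupFilterBasis G :=
    { sets := {S | ∃ U ∈ 𝓝 (1 : G), ∃ V ∈ @nhds _ σ (1 : Subgroup.center G),
        S = {g | ∃ u ∈ U, ∃ v ∈ V, u * (v : G) = g}}
      nonempty := ⟨_, Set.univ, univ_mem, Set.univ, univ_mem, rfl⟩
      inter_sets := by
        rintro _ _ ⟨U, hU, V, hV, rfl⟩ ⟨U', hU', V', hV', rfl⟩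
        refine ⟨_, ⟨U ∩ U', inter_mem hU hU', V ∩ V', inter_mem hV hV', rfl⟩, ?_⟩
        rintro _ ⟨u, hu, v, hv, rfl⟩
        exact ⟨⟨u, hu.1, v, hv.1, rfl⟩, ⟨u, hu.2, v, hv.2, rfl⟩⟩
      one' := by
        rintro _ ⟨U, hU, V, hV, rfl⟩
        exact ⟨1, mem_of_mem_nhds hU, 1, hmem1 V hV, by simp⟩
      mul' := by
        rintro _ ⟨U, hU, V, hV, rfl⟩
        obtain ⟨U', hU', hUU⟩ := exists_nhds_one_split hU
        obtain ⟨V', hV', hVV⟩ := hsplit V hV
        refine ⟨_, ⟨U', hU', V', hV', rfl⟩, ?_⟩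
        rintro _ ⟨_, ⟨u, hu, v, hv, rfl⟩, _, ⟨u', hu', v', hv', rfl⟩, rfl⟩
        refine ⟨u * u', hUU u hu u' hu', v * v', hVV v hv v' hv', ?_⟩
        have := hcomm v u'
        push_cast
        calc u * u' * (v * v') = u * (u' * v) * v' := by group
          _ = u * (v * u') * v' := by rw [this]
          _ = _ := by group
      inv' := by
        rintro _ ⟨U, hU, V, hV, rfl⟩
        refine ⟨_, ⟨U⁻¹, inv_mem_nhds_one G hU, V⁻¹, hinv V hV, rfl⟩, ?_⟩
        rintro _ ⟨u, hu, v, hv, rfl⟩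
        refine ⟨u⁻¹, hu, v⁻¹, hv, ?_⟩
        have := hcomm v⁻¹ u⁻¹
        rw [this]
        show (v : G)⁻¹ * u⁻¹ = (u * (v : G))⁻¹
        rw [mul_inv_rev]
      conj' := by
        rintro x₀ _ ⟨U, hU, V, hV, rfl⟩
        have hc : ContinuousAt (fun u : G => x₀ * u * x₀⁻¹) 1 := by fun_prop
        have hU' : (fun u : G => x₀ * u * x₀⁻¹) ⁻¹' U ∈ 𝓝 (1 : G) := by
          apply hc.preimage_mem_nhds
          simpa using hU
        refine ⟨_, ⟨_, hU', V, hV, rfl⟩, ?_⟩
        rintro _ ⟨u, hu, v, hv, rfl⟩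
        refine ⟨x₀ * u * x₀⁻¹, hu, v, hv, ?_⟩
        have := hcomm v x₀⁻¹
        calc x₀ * u * x₀⁻¹ * v = x₀ * u * (x₀⁻¹ * v) := by group
          _ = x₀ * u * (v * x₀⁻¹) := by rw [this]
          _ = x₀ * (u * v) * x₀⁻¹ := by group }
  have hBg : @IsTopologicalGroup G B.topology _ := B.isTopologicalGroup
  have hB : ∀ U ∈ 𝓝 (1 : G), ∀ V ∈ @nhds _ σ (1 : Subgroup.center G),
      {g | ∃ u ∈ U, ∃ v ∈ V, u * (v : G) = g} ∈ @nhds G B.topology 1 := fun U hU V hV =>
    B.nhds_one_hasBasis.mem_of_mem (i := {g | ∃ u ∈ U, ∃ v ∈ V, u * (v : G) = g})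
      ⟨U, hU, V, hV, rfl⟩
  have hle1 : 𝓝 (1 : G) ≤ @nhds G B.topology 1 := by
    intro s hs
    obtain ⟨_, ⟨U, hU, V, hV, rfl⟩, hn⟩ := B.nhds_one_hasBasis.mem_iff.1 hs
    refine mem_of_superset hU fun u hu => hn ⟨u, hu, 1, hmem1 V hV, by simp⟩
  have hleB : ‹TopologicalSpace G› ≤ B.topology := le_of_nhds_one_le _ _ inferInstance hBg hle1
  have hT2 : @T2Space G B.topology := by
    refine @IsTopologicalGroup.t2Space_of_one_sep G B.topology _ hBg ?_
    intro x hx
    by_cases hxZ : x ∈ Subgroup.center G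
    · -- separate inside the centre
      have hx1 : (⟨x, hxZ⟩ : Subgroup.center G) ≠ 1 := fun h => hx (congrArg Subtype.val h)
      obtain ⟨V, hV, hxV⟩ : ∃ V ∈ @nhds _ σ (1 : Subgroup.center G),
          (⟨x, hxZ⟩ : Subgroup.center G) ∉ V := by
        refine ⟨{⟨x, hxZ⟩}ᶜ, ?_, by simp⟩
        letI := σ
        haveI := hσg
        haveI := hσ2
        exact isOpen_compl_singleton.mem_nhds (by simpa using hx1.symm)
      obtain ⟨V', hV', hVV⟩ := hsplit V hV
      obtain ⟨U, hU, hUV⟩ := hσt V' hV'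
      refine ⟨_, hB U hU V' hV', ?_⟩
      rintro ⟨u, hu, v, hv, huv⟩
      have hu' : u = x * (v : G)⁻¹ := by rw [← huv]; group
      have huZ : u ∈ Subgroup.center G := by
        rw [hu']
        exact Subgroup.mul_mem _ hxZ (Subgroup.inv_mem _ v.2)
      have h1 : (⟨u, huZ⟩ : Subgroup.center G) ∈ V' := hUV _ hu
      have h2 := hVV _ h1 v hv
      apply hxV
      convert h2 using 1
      exact Subtype.ext huv.symm
    · have hc : ContinuousAt (fun u : G => u⁻¹ * x) 1 := by fun_prop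
      have hU : (fun u : G => u⁻¹ * x) ⁻¹' ((Subgroup.center G : Set G)ᶜ) ∈ 𝓝 (1 : G) := by
        apply hc.preimage_mem_nhds
        apply hZc.isOpen_compl.mem_nhds
        simpa using hxZ
      refine ⟨_, hB _ hU Set.univ univ_mem, ?_⟩
      rintro ⟨u, hu, v, _, huv⟩
      apply hu
      have : u⁻¹ * x = v := by rw [← huv]; group
      show u⁻¹ * x ∈ Subgroup.center G
      rw [this]
      exact v.2
  have heq : B.topology = ‹TopologicalSpace G› := hm _ hleB hBg hT2
  refine le_antisymm ?_ hle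
  refine le_of_nhds_one_le _ _ hσg inferInstance ?_
  intro s hs
  obtain ⟨U, hU, hUs⟩ := mem_nhds_induced (Subtype.val : Subgroup.center G → G) 1 s |>.1 hs
  have hU' : U ∈ @nhds G B.topology 1 := by rw [heq]; exact hU
  obtain ⟨_, ⟨U1, hU1, V, hV, rfl⟩, hn⟩ := B.nhds_one_hasBasis.mem_iff.1 hU'
  refine mem_of_superset hV fun v hv => hUs ?_
  exact hn ⟨1, mem_of_mem_nhds hU1, v, hv, by simp⟩

omit [IsTopologicalGroup G] in
/-- the countable pseudocharacter of the centre, read in `G` -/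
theorem cp_center (h : CP (Set.univ : Set (Subgroup.center G))) :
    CP (Subgroup.center G : Set G) := by
  obtain ⟨W, hW, hWz⟩ := h
  choose U hU hUW using fun n => mem_nhds_induced (Subtype.val : Subgroup.center G → G) 1 (W n) |>.1 (hW n)
  refine ⟨U, hU, fun z hz hzn => ?_⟩
  have := hWz ⟨z, hz⟩ (Set.mem_univ _) fun n => hUW n (hzn n)
  exact congrArg Subtype.val this

end

/-- the reduction to the abelian case -/
theorem reduction (hab : ∀ (A : Type) [Group A] [TopologicalSpace A] [IsTopologicalGroup A]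
      [T2Space A], (∀ a b : A, a * b = b * a) → Precompact A → Minimal A → Tight A →
      CP (Set.univ : Set A))
    (G : Type) [Group G] [TopologicalSpace G] [IsTopologicalGroup G] [T2Space G]
    (hn : Group.IsNilpotent G) (hp : Precompact G) (hm : Minimal G) (ht : Tight G) :
    TopologicalSpace.MetrizableSpace G := by
  have h1 : CP (Set.univ : Set (Subgroup.center G)) :=
    hab (Subgroup.center G) (fun a b => Subtype.ext (Subgroup.mem_center_iff.1 b.2 a))
      (precompact_subgroup hp _) (minimal_center hm) (tight_subtype ht _)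
  have h2 := cp_upper hp (cp_center h1)
  obtain ⟨n, hn⟩ := hn.nilpotent'
  have h3 : CP (Set.univ : Set G) := by
    have := h2 n
    rwa [hn] at this
  exact metrizable_of (countable_nhds hp hm h3)

end Pool.Agent.H241R3.Nil
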