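import Mathlib

set_option autoImplicit false
set_option linter.style.haveILetI false

open Set

namespace Pool.Agent.H241R3.Nil

/-! ### The algebraic part -/

/-- the group `ℚ/ℤ` -/
abbrev QZ : Type := AddCircle (1 : ℚ)

theorem exists_zsmul_eq {u v : QZ} {N : ℕ} (hN : 0 < N) (hu : addOrderOf u = N)
    (hv : addOrderOf v = N) : ∃ k : ℤ, k • v = u := by
  have : Fact ((0:ℚ) < 1) := ⟨by norm_num⟩
  rw [AddCircle.addOrderOf_eq_pos_iff hN] at hu hv
  obtain ⟨m, hm, hmN, rfl⟩ := hu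
  obtain ⟨m', hm', hmN', rfl⟩ := hv
  have hcop : IsCoprime (m' : ℤ) (N : ℤ) := Nat.isCoprime_iff_coprime.2 hmN'
  obtain ⟨a, b, hab⟩ := hcop
  refine ⟨m * a, ?_⟩
  rw [← AddCircle.coe_zsmul]
  have hNQ : (N : ℚ) ≠ 0 := by positivity
  have h1 : ((m * a : ℤ) • ((m' : ℚ) / N * 1) : ℚ) = (m : ℚ) / N * 1 + ((-(m * b : ℤ) : ℤ) : ℚ) := by
    rw [zsmul_eq_mul]
    push_cast
    have : (a : ℚ) * m' + b * N = 1 := by exact_mod_cast hab
    field_simp
    linear_combination (m : ℚ) * this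
  rw [h1, AddCircle.coe_add]
  have h2 : (((-(m * b : ℤ) : ℤ) : ℚ) : QZ) = 0 := by
    rw [AddCircle.coe_eq_zero_iff]
    exact ⟨-(m * b : ℤ), by simp⟩
  rw [h2, add_zero]

section
variable {Ω : Type} [LinearOrder Ω]

open Classical in
/-- the tail sums -/
noncomputable def tail (ξ : Ω) : (Ω →₀ QZ) →+ QZ :=
  Finsupp.liftAddHom (fun η => if ξ ≤ η then AddMonoidHom.id QZ else 0)

open Classical in
theorem tail_single (ξ β : Ω) (q : QZ) :
    tail ξ (Finsupp.single β q) = if ξ ≤ β then q else 0 := by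
  unfold tail
  rw [Finsupp.liftAddHom_apply_single]
  split_ifs <;> rfl

theorem tail_ne (ξ : Ω) (v : Ω →₀ QZ) (h : tail ξ v ≠ 0) : ∃ β ∈ v.support, ξ ≤ β := by
  classical
  by_contra hcon
  push Not at hcon
  apply h
  unfold tail
  rw [Finsupp.liftAddHom_apply, Finsupp.sum]
  refine Finset.sum_eq_zero fun β hβ => ?_
  rw [if_neg (not_le.2 (hcon β hβ))]
  rfl

/-- the property of abelian groups that we need -/
def Good (Ω : Type) (X : Type) [AddCommGroup X] : Prop :=
  ∃ x : Ω → X →+ QZ, (∀ χ, {ξ | x ξ χ ≠ 0}.Countable) ∧ (∀ ξ, x ξ ≠ 0) ∧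
    (∀ ξ₀ χ₀, ∀ C : Set Ω, C.Countable → ∃ f : X, ∀ ξ ∈ C,
      addOrderOf (x ξ f) = addOrderOf (x ξ₀ χ₀))

omit [LinearOrder Ω] in
theorem good_of_surj {X D : Type} [AddCommGroup X] [AddCommGroup D] (π : X →+ D)
    (hπ : Function.Surjective π) (h : Good Ω D) : Good Ω X := by
  obtain ⟨x, h1, h2, h3⟩ := h
  refine ⟨fun ξ => (x ξ).comp π, fun χ => h1 (π χ), fun ξ h0 => h2 ξ ?_, ?_⟩
  · ext d
    obtain ⟨c, rfl⟩ := hπ d
    exact DFunLike.congr_fun h0 c
  · intro ξ₀ χ₀ C hC
    obtain ⟨f, hf⟩ := h3 ξ₀ (π χ₀) C hC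
    obtain ⟨g, rfl⟩ := hπ f
    exact ⟨g, hf⟩

omit [LinearOrder Ω] in
theorem exists_divisible : Nonempty (DivisibleBy (Ω →₀ QZ) ℤ) := by
  refine ⟨divisibleByOfSMulRightSurj _ _ fun {n} hn v => ?_⟩
  classical
  refine ⟨v.mapRange (fun q => if q = 0 then 0 else DivisibleBy.div q n) (by simp), ?_⟩
  ext a
  rw [Finsupp.smul_apply, Finsupp.mapRange_apply]
  split_ifs with h
  · rw [smul_zero, h]
  · exact DivisibleBy.div_cancel _ hn

theorem bounded_of_countable (hIic : ∀ β : Ω, (Iic β).Countable) (hunc : ¬ Countable Ω)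
    (C : Set Ω) (hC : C.Countable) : ∃ β, ∀ ξ ∈ C, ξ ≤ β := by
  by_contra hcon
  push Not at hcon
  apply hunc
  rw [← countable_univ_iff]
  have : (⋃ ξ ∈ C, Iic ξ).Countable := hC.biUnion fun ξ _ => hIic ξ
  refine this.mono fun β _ => ?_
  obtain ⟨ξ, hξ, hlt⟩ := hcon β
  exact mem_biUnion hξ hlt.le

theorem good_pgroup (hIic : ∀ β : Ω, (Iic β).Countable) (hunc : ¬ Countable Ω)
    (hemb : ∀ ι : Type, ¬ Countable ι → Nonempty (Ω ↪ ι))
    {D : Type} [AddCommGroup D] (p : ℕ) (hp : p.Prime)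
    (hD : ∀ d : D, ∃ k : ℕ, p ^ k • d = 0)
    (hdiv : (∀ d : D, p • d = 0) ∨ (∀ d : D, ∃ d' : D, p • d' = d))
    (huncD : ¬ {d : D | p • d = 0}.Countable) : Good Ω D := by
  classical
  haveI : Fact p.Prime := ⟨hp⟩
  have : Fact ((0:ℚ) < 1) := ⟨by norm_num⟩
  -- the socle
  obtain ⟨S, hSm⟩ : ∃ S : AddSubgroup D, ∀ d, d ∈ S ↔ p • d = 0 := ⟨
    { carrier := {d | p • d = 0}
      zero_mem' := smul_zero _
      add_mem' := by
        intro a b ha hb
        show p • (a + b) = 0
        rw [smul_add, show p • a = 0 from ha, show p • b = 0 from hb, add_zero]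
      neg_mem' := by
        intro a ha
        show p • (-a) = 0
        rw [smul_neg, show p • a = 0 from ha, neg_zero] }, fun d => Iff.rfl⟩
  have hS0 : ∀ s : S, p • s = 0 := by
    intro s
    apply Subtype.ext
    rw [AddSubgroup.coe_nsmul]
    exact (hSm _).1 s.2
  letI : Module (ZMod p) S := AddCommGroup.zmodModule (n := p) hS0
  obtain ⟨ι, ⟨b⟩⟩ : ∃ ι : Type, Nonempty (Module.Basis ι (ZMod p) S) :=
    ⟨_, ⟨Module.Basis.ofVectorSpace (ZMod p) S⟩⟩
  have hι : ¬ Countable ι := by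
    intro hcount
    apply huncD
    have : Countable S := by
      haveI : Finite (ZMod p) := inferInstance
      exact b.repr.injective.countable
    have h2 : (S : Set D).Countable := Set.countable_coe_iff.1 this
    exact h2.mono fun d hd => (hSm d).2 hd
  obtain ⟨j⟩ := hemb _ hι
  -- the element of order p
  let q : QZ := ((1 / (p:ℚ) : ℚ) : QZ)
  have hq : addOrderOf q = p := AddCircle.addOrderOf_period_div hp.pos
  have hpq : p • q = 0 := by rw [← hq]; exact addOrderOf_nsmul_eq_zero q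
  have hq0 : q ≠ 0 := by
    intro h
    rw [h, addOrderOf_zero] at hq
    exact hp.one_lt.ne hq
  let c : ZMod p →+ QZ := ZMod.lift p ⟨zmultiplesHom QZ q, by
    rw [zmultiplesHom_apply, natCast_zsmul]; exact hpq⟩
  have hc1 : c 1 = q := by
    have h := ZMod.lift_coe p (⟨zmultiplesHom QZ q, by
      rw [zmultiplesHom_apply, natCast_zsmul]; exact hpq⟩ : { f : ℤ →+ QZ // f p = 0 }) 1
    rw [Int.cast_one] at h
    exact h.trans (by simp)
  let g0 : (ι →₀ ZMod p) →+ (Ω →₀ QZ) :=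
    Finsupp.liftAddHom (fun i => if h : ∃ β, j β = i then
      (Finsupp.singleAddHom h.choose).comp c else 0)
  let g : S →+ (Ω →₀ QZ) := g0.comp b.repr.toLinearMap.toAddMonoidHom
  have hg : ∀ β, g (b (j β)) = Finsupp.single β q := by
    intro β
    show g0 (b.repr (b (j β))) = _
    rw [b.repr_self]
    show Finsupp.liftAddHom _ _ = _
    rw [Finsupp.liftAddHom_apply_single]
    have h : ∃ β', j β' = j β := ⟨β, rfl⟩
    rw [dif_pos h]
    have h2 : h.choose = β := j.injective h.choose_spec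
    rw [h2]
    show Finsupp.single β (c 1) = _
    rw [hc1]
  obtain ⟨dv⟩ := exists_divisible (Ω := Ω)
  obtain ⟨φ, hφ⟩ := (Module.Baer.of_divisible (Ω →₀ QZ)).extension_property_addMonoidHom
    S.subtype Subtype.val_injective g
  have hφ' : ∀ s : S, φ (s : D) = g s := fun s => DFunLike.congr_fun hφ s
  have hxe : ∀ ξ β, tail ξ (φ (b (j β) : S)) = if ξ ≤ β then q else 0 := by
    intro ξ β
    rw [hφ', hg, tail_single]
  have hpow : p.Prime := hp
  refine ⟨fun ξ => (tail ξ).comp φ, ?_, ?_, ?_⟩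
  · intro χ
    have : (⋃ β ∈ ((φ χ).support : Set Ω), Iic β).Countable :=
      (Finset.countable_toSet _).biUnion fun β _ => hIic β
    refine this.mono fun ξ hξ => ?_
    obtain ⟨β, hβ, hle⟩ := tail_ne ξ (φ χ) hξ
    exact mem_biUnion hβ hle
  · intro ξ h0
    have := DFunLike.congr_fun h0 ((b (j ξ) : S) : D)
    have h1 : tail ξ (φ (b (j ξ) : S)) = 0 := this
    rw [hxe, if_pos le_rfl] at h1
    exact hq0 h1
  · intro ξ₀ χ₀ C hC
    obtain ⟨β, hβ⟩ := bounded_of_countable hIic hunc C hC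
    obtain ⟨k, hk⟩ := hD χ₀
    have hdvd : addOrderOf (((tail ξ₀).comp φ) χ₀) ∣ p ^ k := by
      rw [addOrderOf_dvd_iff_nsmul_eq_zero, ← map_nsmul, hk, map_zero]
    obtain ⟨m, -, hm⟩ := (Nat.dvd_prime_pow hp).1 hdvd
    rcases m with _ | m
    · refine ⟨0, fun ξ _ => ?_⟩
      rw [hm, map_zero, addOrderOf_zero, pow_zero]
    · -- find a root
      have hf : ∃ f : D, p ^ m • f = (b (j β) : S) := by
        rcases hdiv with hdiv | hdiv
        · have hm0 : m = 0 := by
            have h1 : addOrderOf (((tail ξ₀).comp φ) χ₀) ∣ p := by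
              rw [addOrderOf_dvd_iff_nsmul_eq_zero, ← map_nsmul, hdiv, map_zero]
            rw [hm] at h1
            by_contra hne
            have h2 : p ^ 2 ∣ p := (pow_dvd_pow p (by omega)).trans h1
            have h3 := Nat.le_of_dvd hp.pos h2
            have := hp.one_lt
            nlinarith
          exact ⟨_, by rw [hm0, pow_zero, one_smul]⟩
        · clear hm
          have : ∀ (m : ℕ) (d : D), ∃ f : D, p ^ m • f = d := by
            intro m
            induction m with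
            | zero => exact fun d => ⟨d, by rw [pow_zero, one_smul]⟩
            | succ m ih =>
              intro d
              obtain ⟨d', hd'⟩ := hdiv d
              obtain ⟨f, hf⟩ := ih d'
              exact ⟨f, by rw [pow_succ', mul_smul, hf, hd']⟩
          exact this m _
      obtain ⟨f, hf⟩ := hf
      refine ⟨f, fun ξ hξ => ?_⟩
      rw [hm]
      have h1 : p ^ m • ((tail ξ).comp φ) f = q := by
        rw [← map_nsmul, hf]
        have := hxe ξ β
        rw [if_pos (hβ ξ hξ)] at this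
        exact this
      apply addOrderOf_eq_prime_pow
      · rw [h1]; exact hq0
      · rw [pow_succ', mul_smul, h1, hpq]

end

end Pool.Agent.H241R3.Nil
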