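import Pool.Agent.H241R3.NilC

set_option autoImplicit false
set_option linter.style.haveILetI false

open Set

namespace Pool.Agent.H241R3.Nil

/-- a homomorphism with countable image and countable kernel has countable source -/
theorem countable_of_ker {X Y : Type} [AddCommGroup X] [AddCommGroup Y] (f : X →+ Y)
    (hY : (Set.range f).Countable) (hK : {x : X | f x = 0}.Countable) : Countable X := by
  rw [← countable_univ_iff]
  have h1 : (⋃ y ∈ Set.range f, {x : X | f x = y}).Countable := by
    refine hY.biUnion ?_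
    rintro _ ⟨x₀, rfl⟩
    have : {x : X | f x = f x₀} = (fun k => k + x₀) '' {x : X | f x = 0} := by
      ext x
      constructor
      · intro hx
        refine ⟨x - x₀, ?_, by simp⟩
        show f (x - x₀) = 0
        rw [map_sub, show f x = f x₀ from hx, sub_self]
      · rintro ⟨k, hk, rfl⟩
        show f (k + x₀) = f x₀
        rw [map_add, show f k = 0 from hk, zero_add]
    rw [this]
    exact hK.image _
  refine h1.mono fun x _ => ?_
  exact mem_biUnion (x := f x) (Set.mem_range_self x) rfl

theorem countable_closure {X : Type} [AddCommGroup X] (B : Set X) (hB : B.Countable) :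
    ((AddSubgroup.closure B : AddSubgroup X) : Set X).Countable := by
  have h2 : (Submodule.span ℤ B).toAddSubgroup = AddSubgroup.closure B :=
    Submodule.span_int_eq_addSubgroupClosure _
  haveI := hB.to_subtype
  have h3 : Countable (Submodule.span ℤ (Set.range (Subtype.val : B → X))) := inferInstance
  rw [Subtype.range_val] at h3
  have h4 : ((Submodule.span ℤ B : Submodule ℤ X) : Set X).Countable :=
    Set.countable_coe_iff.1 h3
  rw [← h2]
  exact h4

/-- the elements killed by `n` -/
def tors (D : Type) [AddCommGroup D] (n : ℕ) : Set D := {d : D | n • d = 0}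

theorem tors_mul {D : Type} [AddCommGroup D] (p n : ℕ) (hp : (tors D p).Countable)
    (hn : (tors D n).Countable) : (tors D (p * n)).Countable := by
  have h1 : (⋃ y ∈ tors D n, {x ∈ tors D (p * n) | p • x = y}).Countable := by
    refine hn.biUnion fun y _ => ?_
    rcases Set.eq_empty_or_nonempty {x ∈ tors D (p * n) | p • x = y} with he | ⟨x₀, -, hx₀⟩
    · rw [he]; exact countable_empty
    · refine (hp.image (fun k => k + x₀)).mono ?_
      rintro x ⟨-, hx⟩
      refine ⟨x - x₀, ?_, by simp⟩
      show p • (x - x₀) = 0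
      rw [smul_sub, hx, hx₀, sub_self]
  refine h1.mono fun x hx => ?_
  refine mem_biUnion (x := p • x) ?_ ⟨hx, rfl⟩
  show n • p • x = 0
  rw [← mul_smul, mul_comm]
  exact hx

theorem exists_prime {D : Type} [AddCommGroup D] (ht : ∀ d : D, ∃ n : ℕ, n ≠ 0 ∧ n • d = 0)
    (hunc : ¬ Countable D) : ∃ p : ℕ, p.Prime ∧ ¬ (tors D p).Countable := by
  by_contra hcon
  push Not at hcon
  apply hunc
  have hall : ∀ n : ℕ, n ≠ 0 → (tors D n).Countable := by
    intro n
    induction n using induction_on_primes with
    | zero => exact fun h => absurd rfl h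
    | one =>
      intro _
      have : tors D 1 = {0} := by
        ext d
        simp [tors]
      rw [this]
      exact countable_singleton 0
    | prime_mul p a hp ih =>
      intro h
      exact tors_mul p a (hcon p hp) (ih (right_ne_zero_of_mul h))
  rw [← countable_univ_iff]
  have h1 : (⋃ n ∈ {n : ℕ | n ≠ 0}, tors D n).Countable :=
    (Set.to_countable _).biUnion fun n hn => hall n hn
  refine h1.mono fun d _ => ?_
  obtain ⟨n, hn, hd⟩ := ht d
  exact mem_biUnion hn hd

section
variable {Ω : Type} [LinearOrder Ω]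

/-- uncountable `p`-groups -/
theorem good_of_pgroup (hIic : ∀ β : Ω, (Iic β).Countable) (hunc : ¬ Countable Ω)
    (hemb : ∀ ι : Type, ¬ Countable ι → Nonempty (Ω ↪ ι))
    {D : Type} [AddCommGroup D] (p : ℕ) (hp : p.Prime)
    (hD : ∀ d : D, ∃ k : ℕ, p ^ k • d = 0) (huncD : ¬ Countable D) : Good Ω D := by
  classical
  -- the subgroup pD
  let m : D →+ D := DistribSMul.toAddMonoidHom D p
  have hm : ∀ d, m d = p • d := fun d => rfl
  by_cases hc : Countable (D ⧸ m.range)
  · -- divide by a countable subgroup
    let s : D ⧸ m.range → D := Quotient.out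
    let H : AddSubgroup D := AddSubgroup.closure (Set.range s)
    have hHc : (H : Set D).Countable := countable_closure _ (Set.countable_range s)
    have hq : ∀ d : D ⧸ H, ∃ k : ℕ, p ^ k • d = 0 := by
      intro d
      obtain ⟨d, rfl⟩ := QuotientAddGroup.mk'_surjective H d
      obtain ⟨k, hk⟩ := hD d
      exact ⟨k, by rw [← map_nsmul, hk, map_zero]⟩
    have huncq : ¬ Countable (D ⧸ H) := by
      intro hcq
      apply huncD
      apply countable_of_ker (QuotientAddGroup.mk' H) (Set.to_countable _)
      refine hHc.mono fun d hd => ?_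
      exact (QuotientAddGroup.eq_zero_iff d).1 hd
    refine good_of_surj (QuotientAddGroup.mk' H) (QuotientAddGroup.mk'_surjective H) ?_
    refine good_pgroup hIic hunc hemb p hp hq (Or.inr ?_) ?_
    · intro d
      obtain ⟨d, rfl⟩ := QuotientAddGroup.mk'_surjective H d
      have h1 : ((s (d : D ⧸ m.range) : D) : D ⧸ m.range) = (d : D ⧸ m.range) :=
        Quotient.out_eq _
      rw [QuotientAddGroup.eq] at h1
      obtain ⟨d', hd'⟩ := h1
      refine ⟨QuotientAddGroup.mk' H d', ?_⟩
      rw [← map_nsmul, ← hm, hd']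
      rw [map_add, map_neg]
      have h2 : (QuotientAddGroup.mk' H) (s (d : D ⧸ m.range)) = 0 :=
        (QuotientAddGroup.eq_zero_iff _).2 (AddSubgroup.subset_closure ⟨_, rfl⟩)
      rw [h2, neg_zero, zero_add]
    · intro hcount
      obtain ⟨p', hp', hunc'⟩ := exists_prime (D := D ⧸ H) (fun d => by
        obtain ⟨k, hk⟩ := hq d
        exact ⟨p ^ k, pow_ne_zero _ hp.ne_zero, hk⟩) huncq
      rcases eq_or_ne p' p with rfl | hne
      · exact hunc' hcount
      · apply hunc'
        refine (countable_singleton (0 : D ⧸ H)).mono fun d hd => ?_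
        obtain ⟨k, hk⟩ := hq d
        have hcop : Nat.Coprime p' (p ^ k) :=
          Nat.Coprime.pow_right k ((Nat.coprime_primes hp' hp).2 hne)
        have h1 : addOrderOf d ∣ p' := addOrderOf_dvd_iff_nsmul_eq_zero.2 hd
        have h2 : addOrderOf d ∣ p ^ k := addOrderOf_dvd_iff_nsmul_eq_zero.2 hk
        have h3 : addOrderOf d = 1 := Nat.eq_one_of_dvd_coprimes hcop h1 h2
        exact AddMonoid.addOrderOf_eq_one_iff.1 h3
  · -- the quotient by pD
    refine good_of_surj (QuotientAddGroup.mk' m.range) (QuotientAddGroup.mk'_surjective _) ?_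
    have hkill : ∀ d : D ⧸ m.range, p • d = 0 := by
      intro d
      obtain ⟨d, rfl⟩ := QuotientAddGroup.mk'_surjective m.range d
      rw [← map_nsmul]
      exact (QuotientAddGroup.eq_zero_iff _).2 ⟨d, hm d⟩
    refine good_pgroup hIic hunc hemb p hp (fun d => ⟨1, by rw [pow_one]; exact hkill d⟩)
      (Or.inl hkill) ?_
    intro hcount
    apply hc
    rw [← countable_univ_iff]
    exact hcount.mono fun d _ => hkill d

/-- uncountable torsion groups -/
theorem good_of_torsion (hIic : ∀ β : Ω, (Iic β).Countable) (hunc : ¬ Countable Ω)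
    (hemb : ∀ ι : Type, ¬ Countable ι → Nonempty (Ω ↪ ι))
    {D : Type} [AddCommGroup D] (ht : ∀ d : D, ∃ n : ℕ, n ≠ 0 ∧ n • d = 0)
    (huncD : ¬ Countable D) : Good Ω D := by
  obtain ⟨p, hp, hpD⟩ := exists_prime ht huncD
  -- the prime-to-p part
  let Y : AddSubgroup D :=
    { carrier := {d | ∃ n : ℕ, n.Coprime p ∧ n • d = 0}
      zero_mem' := ⟨1, Nat.coprime_one_left p, smul_zero _⟩
      add_mem' := by
        rintro a b ⟨m, hm, ha⟩ ⟨n, hn, hb⟩
        refine ⟨m * n, hm.mul_left hn, ?_⟩
        rw [smul_add, mul_smul m n b, hb, smul_zero, add_zero, mul_comm, mul_smul, ha, smul_zero]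
      neg_mem' := by
        rintro a ⟨m, hm, ha⟩
        exact ⟨m, hm, by rw [smul_neg, ha, neg_zero]⟩ }
  have hY : ∀ d, d ∈ Y ↔ ∃ n : ℕ, n.Coprime p ∧ n • d = 0 := fun d => Iff.rfl
  refine good_of_surj (QuotientAddGroup.mk' Y) (QuotientAddGroup.mk'_surjective Y) ?_
  refine good_of_pgroup hIic hunc hemb p hp ?_ ?_
  · intro d
    obtain ⟨d, rfl⟩ := QuotientAddGroup.mk'_surjective Y d
    obtain ⟨n, hn0, hn⟩ := ht d
    obtain ⟨k, n', hn', hnk⟩ := Nat.exists_eq_pow_mul_and_not_dvd hn0 p hp.ne_one
    refine ⟨k, ?_⟩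
    rw [← map_nsmul]
    refine (QuotientAddGroup.eq_zero_iff _).2 ((hY _).2 ⟨n', ?_, ?_⟩)
    · exact ((Nat.Prime.coprime_iff_not_dvd hp).2 hn').symm
    · rw [← mul_smul, mul_comm, ← hnk, hn]
  · intro hc
    apply hpD
    have hinj : Set.InjOn (QuotientAddGroup.mk' Y) (tors D p) := by
      intro a ha b hb hab
      have h1 : a - b ∈ Y := by
        rw [← QuotientAddGroup.eq_zero_iff]
        have : (QuotientAddGroup.mk' Y) (a - b) = 0 := by rw [map_sub, hab, sub_self]
        exact this
      obtain ⟨n, hn, hn'⟩ := (hY _).1 h1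
      have h2 : p • (a - b) = 0 := by
        rw [smul_sub, show p • a = 0 from ha, show p • b = 0 from hb, sub_zero]
      have h3 : addOrderOf (a - b) = 1 := Nat.eq_one_of_dvd_coprimes hn
        (addOrderOf_dvd_iff_nsmul_eq_zero.2 hn') (addOrderOf_dvd_iff_nsmul_eq_zero.2 h2)
      exact sub_eq_zero.1 (AddMonoid.addOrderOf_eq_one_iff.1 h3)
    exact Set.countable_of_injective_of_countable_image hinj (Set.to_countable _)

/-- all uncountable abelian groups -/
theorem good_of_uncountable (hIic : ∀ β : Ω, (Iic β).Countable) (hunc : ¬ Countable Ω)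
    (hemb : ∀ ι : Type, ¬ Countable ι → Nonempty (Ω ↪ ι))
    {X : Type} [AddCommGroup X] (huncX : ¬ Countable X) : Good Ω X := by
  classical
  obtain ⟨B, hB, hmax⟩ := exists_maximal_linearIndepOn ℤ (id : X → X)
  let F : Submodule ℤ X := Submodule.span ℤ (id '' B)
  let dbl : X →+ X := DistribSMul.toAddMonoidHom X (2 : ℕ)
  have hdbl : ∀ x, dbl x = 2 • x := fun x => rfl
  let F2 : AddSubgroup X := F.toAddSubgroup.map dbl
  have hF2 : ∀ x, x ∈ F2 ↔ ∃ f ∈ F, 2 • f = x := fun x => by
    simp only [F2, AddSubgroup.mem_map, Submodule.mem_toAddSubgroup, hdbl]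
  refine good_of_surj (QuotientAddGroup.mk' F2) (QuotientAddGroup.mk'_surjective F2) ?_
  refine good_of_torsion hIic hunc hemb ?_ ?_
  · intro q
    obtain ⟨x, rfl⟩ := QuotientAddGroup.mk'_surjective F2 q
    have h1 : ∃ a : ℤ, a ≠ 0 ∧ a • x ∈ F := by
      by_cases hx : x ∈ B
      · exact ⟨1, one_ne_zero, by rw [one_smul]; exact Submodule.subset_span ⟨x, hx, rfl⟩⟩
      · exact hmax x hx
    obtain ⟨a, ha, hax⟩ := h1
    refine ⟨2 * a.natAbs, by simpa using ha, ?_⟩
    rw [← map_nsmul]
    refine (QuotientAddGroup.eq_zero_iff _).2 ((hF2 _).2 ?_)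
    refine ⟨a.natAbs • x, ?_, by rw [mul_smul]⟩
    rcases Int.natAbs_eq a with h | h
    · have : (a.natAbs • x : X) = a • x := by
        conv_rhs => rw [h]
        rw [natCast_zsmul]
      rw [this]; exact hax
    · have : (a.natAbs • x : X) = -(a • x) := by
        conv_rhs => rw [h]
        rw [neg_smul, natCast_zsmul, neg_neg]
      rw [this]; exact F.neg_mem hax
  · intro hc
    apply huncX
    -- B is countable
    have hBinj : Set.InjOn (QuotientAddGroup.mk' F2) B := by
      intro b hb b' hb' hbb
      by_contra hne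
      have h1 : b - b' ∈ F2 := by
        rw [← QuotientAddGroup.eq_zero_iff]
        have : (QuotientAddGroup.mk' F2) (b - b') = 0 := by rw [map_sub, hbb, sub_self]
        exact this
      obtain ⟨f, hf, hfb⟩ := (hF2 _).1 h1
      obtain ⟨c, hcB, hcf⟩ := (Finsupp.mem_span_image_iff_linearCombination ℤ).1 hf
      have h2 : Finsupp.linearCombination ℤ (id : X → X)
          (Finsupp.single b 1 - Finsupp.single b' 1 - (2:ℤ) • c) = 0 := by
        rw [map_sub, map_sub, map_smul, hcf, Finsupp.linearCombination_single,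
          Finsupp.linearCombination_single]
        simp only [one_smul, id]
        rw [← hfb]
        simp [two_smul]
      have hmem : (Finsupp.single b 1 - Finsupp.single b' 1 - (2:ℤ) • c : X →₀ ℤ) ∈
          Finsupp.supported ℤ ℤ B := by
        refine Submodule.sub_mem _ (Submodule.sub_mem _ ?_ ?_) (Submodule.smul_mem _ _ hcB)
        · exact Finsupp.single_mem_supported ℤ _ hb
        · exact Finsupp.single_mem_supported ℤ _ hb'
      have h3 := (linearIndepOn_iff.1 hB) _ hmem h2
      have h4 := DFunLike.congr_fun h3 b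
      simp only [Finsupp.sub_apply, Finsupp.single_eq_same, Finsupp.smul_apply,
        Finsupp.zero_apply, smul_eq_mul] at h4
      rw [Finsupp.single_apply, if_neg (fun h => hne h.symm)] at h4
      omega
    have hBc : B.Countable := Set.countable_of_injective_of_countable_image hBinj
      (Set.to_countable _)
    have hFc : (F : Set X).Countable := by
      have h1 : (id '' B).Countable := by simpa using hBc
      have h2 : F.toAddSubgroup = AddSubgroup.closure (id '' B) := by
        exact Submodule.span_int_eq_addSubgroupClosure _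
      have h3 : ((AddSubgroup.closure (id '' B) : AddSubgroup X) : Set X).Countable :=
        countable_closure _ h1
      rw [← h2] at h3
      exact h3
    apply countable_of_ker (QuotientAddGroup.mk' F2) (Set.to_countable _)
    refine (hFc.image dbl).mono fun x hx => ?_
    exact (QuotientAddGroup.eq_zero_iff x).1 hx

end

end Pool.Agent.H241R3.Nil
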