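import Pool.Agent.H241R3.NilB
import Pool.Agent.H241R3.NilC2
import Pool.Agent.Helper69.Dual
import Pool.Agent.Helper472.Lat_Chars

set_option autoImplicit false
set_option linter.style.haveILetI false

open Filter Topology Set
open scoped Pointwise

namespace Pool.Agent.H241R3.Nil

/-! ### Characters of precompact abelian groups -/

section chars
variable {A : Type} [CommGroup A] [TopologicalSpace A] [IsTopologicalGroup A] [T2Space A]

/-- characters separate the points of a precompact abelian group -/
theorem exists_char (hp : Precompact A) (a : A) (ha : a ≠ 1) :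
    ∃ χ : A →ₜ* Circle, χ a ≠ 1 := by
  classical
  letI : UniformSpace (Additive A) := IsTopologicalAddGroup.rightUniformSpace (Additive A)
  haveI : IsUniformAddGroup (Additive A) := isUniformAddGroup_of_addCommGroup
  haveI : T2Space (Additive A) := inferInstanceAs (T2Space A)
  have htb : TotallyBounded (Set.univ : Set (Additive A)) := by
    rw [totallyBounded_iff_subset_finite_iUnion_nhds_zero]
    intro U hU
    obtain ⟨F, hF⟩ := hp U hU
    refine ⟨(show Set (Additive A) from (F : Set A)), F.finite_toSet, fun x _ => ?_⟩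
    obtain ⟨g, hg, hx⟩ := hF x
    exact mem_biUnion hg hx
  have hcomp : CompactSpace (UniformSpace.Completion (Additive A)) := by
    rw [← isCompact_univ_iff, isCompact_iff_totallyBounded_isComplete]
    refine ⟨?_, isComplete_univ⟩
    have h1 : TotallyBounded (Set.range
        ((↑) : Additive A → UniformSpace.Completion (Additive A))) := by
      rw [← Set.image_univ]
      exact htb.image (UniformSpace.Completion.uniformContinuous_coe _)
    have h2 := h1.closure
    rwa [UniformSpace.Completion.denseRange_coe.closure_range] at h2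
  haveI : T2Space (Multiplicative (UniformSpace.Completion (Additive A))) :=
    inferInstanceAs (T2Space (UniformSpace.Completion (Additive A)))
  let ι : A → Multiplicative (UniformSpace.Completion (Additive A)) := fun x =>
    Multiplicative.ofAdd ((Additive.ofMul x : Additive A) : UniformSpace.Completion (Additive A))
  have hι1 : ι 1 = 1 := by
    show Multiplicative.ofAdd (((0 : Additive A) : UniformSpace.Completion (Additive A))) = 1
    rw [UniformSpace.Completion.coe_zero]
    rfl
  have hιmul : ∀ x y, ι (x * y) = ι x * ι y := by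
    intro x y
    show Multiplicative.ofAdd (((Additive.ofMul x + Additive.ofMul y : Additive A) :
      UniformSpace.Completion (Additive A))) = _
    rw [UniformSpace.Completion.coe_add]
    rfl
  have hιc : Continuous ι :=
    (UniformSpace.Completion.continuous_coe (Additive A))
  have hne : ι a ≠ 1 := by
    intro h
    rw [← hι1] at h
    have h2 : ((Additive.ofMul a : Additive A) : UniformSpace.Completion (Additive A)) =
        ((Additive.ofMul (1 : A) : Additive A) : UniformSpace.Completion (Additive A)) :=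
      Multiplicative.ofAdd.injective h
    have h3 := UniformSpace.Completion.coe_injective (Additive A) h2
    exact ha (Additive.ofMul.injective h3)
  obtain ⟨χ, hχ⟩ := Pool.LatH472.chars (ι a) hne
  refine ⟨⟨⟨⟨fun x => χ (ι x), ?_⟩, ?_⟩, ?_⟩, hχ⟩
  · rw [hι1]; exact map_one χ
  · intro x y
    show χ (ι (x * y)) = χ (ι x) * χ (ι y)
    rw [hιmul]
    exact map_mul χ _ _
  · exact χ.continuous_toFun.comp hιc

/-- evaluation on a family of characters -/
noncomputable def ev {I : Type} (c : I → (A →ₜ* Circle)) : A →* (I → Circle) where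
  toFun a i := c i a
  map_one' := by
    funext i
    exact map_one (c i)
  map_mul' a b := by
    funext i
    exact map_mul (c i) a b

omit [IsTopologicalGroup A] [T2Space A] in
theorem ev_inducing (hm : Minimal A) {I : Type} (c : I → (A →ₜ* Circle))
    (hsep : ∀ a : A, a ≠ 1 → ∃ i, c i a ≠ 1) : IsInducing (ev c) := by
  constructor
  symm
  refine hm _ ?_ ?_ ?_
  · rw [← continuous_iff_le_induced]
    exact continuous_pi fun i => (c i).continuous_toFun
  · exact topologicalGroup_induced (ev c)
  · have hinj : Function.Injective (ev c) := by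
      rw [injective_iff_map_eq_one]
      intro a ha
      by_contra hne
      obtain ⟨i, hi⟩ := hsep a hne
      exact hi (congrFun ha i)
    letI : TopologicalSpace A := TopologicalSpace.induced (ev c) inferInstance
    exact T2Space.of_injective_continuous hinj continuous_induced_dom

/-- evaluation at a point -/
noncomputable def evalHom (a : A) : (A →ₜ* Circle) →* Circle where
  toFun χ := χ a
  map_one' := rfl
  map_mul' _ _ := rfl

omit [IsTopologicalGroup A] [T2Space A] in
/-- every proper subgroup of the dual group is killed by a non-trivial element -/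
theorem exists_killed (hm : Minimal A) (Y : Subgroup (A →ₜ* Circle)) (hY : Y ≠ ⊤) :
    ∃ a : A, a ≠ 1 ∧ ∀ χ ∈ Y, χ a = 1 := by
  by_contra hcon
  push Not at hcon
  apply hY
  rw [eq_top_iff]
  intro ψ _
  have h1 : IsInducing (ev (fun χ : Y => (χ : A →ₜ* Circle))) := by
    apply ev_inducing hm
    intro a ha
    obtain ⟨χ, hχ, hne⟩ := hcon a ha
    exact ⟨⟨χ, hχ⟩, hne⟩
  obtain ⟨h, hh⟩ := Pool.Agent.Helper69.Dual.exists_prod_of_inducing _ h1 ψ
  have h2 : ψ = h.prod fun i n => (i : A →ₜ* Circle) ^ n := by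
    apply ContinuousMonoidHom.ext
    intro a
    rw [hh a]
    let E : (A →ₜ* Circle) →* Circle :=
      { toFun := fun χ => χ a, map_one' := rfl, map_mul' := fun _ _ => rfl }
    show _ = E (h.prod fun i n => (i : A →ₜ* Circle) ^ n)
    rw [map_finsuppProd]
    refine Finset.prod_congr rfl fun i _ => ?_
    show _ = E ((i : A →ₜ* Circle) ^ (h i))
    rw [map_zpow]
    rfl
  rw [h2]
  exact Subgroup.prod_mem _ fun i _ => Subgroup.zpow_mem _ i.2 _

end chars

theorem fin_order (u : QZ) : IsOfFinAddOrder u := by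
  obtain ⟨q, rfl⟩ := QuotientAddGroup.mk_surjective u
  rw [isOfFinAddOrder_iff_nsmul_eq_zero]
  refine ⟨q.den, q.den_pos, ?_⟩
  show q.den • ((q : ℚ) : QZ) = 0
  rw [← AddCircle.coe_nsmul, AddCircle.coe_eq_zero_iff]
  refine ⟨q.num, ?_⟩
  rw [zsmul_eq_mul, mul_one, nsmul_eq_mul, mul_comm, Rat.mul_den_eq_num]

/-- roots of unity different from 1 form a closed set -/
theorem isClosed_roots (N : ℕ) (hN : 0 < N) : IsClosed {z : Circle | z ^ N = 1 ∧ z ≠ 1} := by
  apply Set.Finite.isClosed
  have h1 : {z : Circle | z ^ N = 1}.Finite := by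
    have h2 : ((Polynomial.nthRootsFinset N (1 : ℂ) : Finset ℂ) : Set ℂ).Finite :=
      Finset.finite_toSet _
    refine Set.Finite.of_injOn (f := fun z : Circle => (z : ℂ)) ?_ ?_ h2
    · intro z hz
      have hz' : z ^ N = 1 := hz
      show (z : ℂ) ∈ ((Polynomial.nthRootsFinset N (1 : ℂ) : Finset ℂ) : Set ℂ)
      rw [Finset.mem_coe, Polynomial.mem_nthRootsFinset hN, ← Circle.coe_pow, hz', Circle.coe_one]
    · exact fun a _ b _ h => Circle.ext h
  exact h1.subset fun z hz => hz.1

section main
variable {A : Type} [CommGroup A] [TopologicalSpace A] [IsTopologicalGroup A] [T2Space A]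

omit [IsTopologicalGroup A] [T2Space A] in
theorem not_tight {Ω : Type} (hunc : ¬ Countable Ω) (hm : Minimal A)
    (hsep : ∀ a : A, a ≠ 1 → ∃ χ : A →ₜ* Circle, χ a ≠ 1)
    (hgood : Good Ω (Additive (A →ₜ* Circle))) (ht : Tight A) : False := by
  classical
  obtain ⟨x, hx1, hx2, hx3⟩ := hgood
  -- the kernels
  let Y : Ω → Subgroup (A →ₜ* Circle) := fun ξ => (AddSubgroup.toSubgroup' (x ξ).ker)
  have hYmem : ∀ ξ χ, χ ∈ Y ξ ↔ x ξ (Additive.ofMul χ) = 0 := fun ξ χ => Iff.rfl
  have hYne : ∀ ξ, Y ξ ≠ ⊤ := by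
    intro ξ h
    apply hx2 ξ
    ext χ
    have : Additive.toMul χ ∈ Y ξ := by rw [h]; trivial
    exact (hYmem ξ _).1 this
  choose a ha1 ha using fun ξ => exists_killed hm (Y ξ) (hYne ξ)
  choose χ hχ using fun ξ => hsep (a ξ) (ha1 ξ)
  -- pigeonhole
  obtain ⟨N, hN⟩ : ∃ N : ℕ, ¬ {ξ | addOrderOf (x ξ (Additive.ofMul (χ ξ))) = N}.Countable := by
    by_contra hcon
    push Not at hcon
    apply hunc
    rw [← countable_univ_iff]
    refine (countable_iUnion hcon).mono fun ξ _ => ?_
    exact mem_iUnion.2 ⟨_, rfl⟩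
  let S : Set Ω := {ξ | addOrderOf (x ξ (Additive.ofMul (χ ξ))) = N}
  have hSne : S.Nonempty := by
    rw [Set.nonempty_iff_ne_empty]
    intro h
    apply hN
    show S.Countable
    rw [h]
    exact countable_empty
  obtain ⟨ξ₀, hξ₀⟩ := hSne
  have hNpos : 0 < N := by
    rw [← hξ₀, addOrderOf_pos_iff]
    exact fin_order _
  -- 1 is in the closure
  have hind : IsInducing (ev (fun χ : A →ₜ* Circle => χ)) := ev_inducing hm _ hsep
  have hcl : (1 : A) ∈ closure (a '' S) := by
    rw [mem_closure_iff_nhds]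
    intro W hW
    rw [hind.nhds_eq_comap, map_one, Filter.mem_comap] at hW
    obtain ⟨t, ht, htW⟩ := hW
    rw [nhds_pi, Filter.mem_pi] at ht
    obtain ⟨I, hI, u, hu, hut⟩ := ht
    have hcount : (⋃ χ ∈ I, {ξ | x ξ (Additive.ofMul χ) ≠ 0}).Countable :=
      hI.countable.biUnion fun χ _ => hx1 _
    obtain ⟨ξ, hξS, hξ⟩ : ∃ ξ ∈ S, ξ ∉ (⋃ χ ∈ I, {ξ | x ξ (Additive.ofMul χ) ≠ 0}) := by
      by_contra hcon
      push Not at hcon
      exact hN (hcount.mono hcon)
    refine ⟨a ξ, htW (hut ?_), ⟨ξ, hξS, rfl⟩⟩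
    intro χ hχI
    have h0 : x ξ (Additive.ofMul χ) = 0 := by
      by_contra hne
      exact hξ (mem_biUnion hχI hne)
    have h1 : χ (a ξ) = 1 := ha ξ χ ((hYmem ξ χ).2 h0)
    show χ (a ξ) ∈ u χ
    rw [h1]
    exact mem_of_mem_nhds (hu χ)
  obtain ⟨B, hBS, hBc, hB1⟩ := ht _ _ hcl
  -- a countable set of indices
  have hBS' : ∀ b : B, ∃ ξ ∈ S, a ξ = b := fun b => by
    obtain ⟨ξ, hξ, h⟩ := hBS b.2
    exact ⟨ξ, hξ, h⟩
  choose c hcS hca using hBS'
  haveI := hBc.to_subtype
  have hCc : (Set.range c).Countable := Set.countable_range c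
  obtain ⟨f, hf⟩ := hx3 ξ₀ (Additive.ofMul (χ ξ₀)) (Set.range c) hCc
  -- the character `f`
  let F : A →ₜ* Circle := Additive.toMul f
  have hFB : ∀ b ∈ B, F b ∈ {z : Circle | z ^ N = 1 ∧ z ≠ 1} := by
    intro b hb
    have hξS : c ⟨b, hb⟩ ∈ S := hcS ⟨b, hb⟩
    have haξ : a (c ⟨b, hb⟩) = b := hca ⟨b, hb⟩
    have hfξ : addOrderOf (x (c ⟨b, hb⟩) f) = N := (hf _ ⟨_, rfl⟩).trans hξ₀
    generalize c ⟨b, hb⟩ = ξ at hξS haξ hfξ
    obtain ⟨k, hk⟩ := exists_zsmul_eq hNpos hξS hfξ
    subst haξ
    have h1 : χ ξ * F ^ (-k) ∈ Y ξ := by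
      rw [hYmem]
      have : Additive.ofMul (χ ξ * F ^ (-k)) = Additive.ofMul (χ ξ) + (-k) • f := rfl
      rw [this, map_add, map_zsmul, neg_smul, hk, add_neg_cancel]
    have h2 : F ^ N ∈ Y ξ := by
      rw [hYmem]
      have : Additive.ofMul (F ^ N) = N • f := rfl
      rw [this, map_nsmul, ← hfξ, addOrderOf_nsmul_eq_zero]
    have h3 : (F (a ξ)) ^ N = 1 := by
      have h6 : evalHom (a ξ) (F ^ N) = 1 := ha ξ _ h2
      rw [map_pow] at h6
      exact h6
    have h4 : χ ξ (a ξ) * (F (a ξ)) ^ (-k) = 1 := by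
      have h6 : evalHom (a ξ) (χ ξ * F ^ (-k)) = 1 := ha ξ _ h1
      rw [map_mul, map_zpow] at h6
      exact h6
    refine ⟨h3, fun h5 => hχ ξ ?_⟩
    rwa [h5, one_zpow, mul_one] at h4
  have h1 : F 1 ∈ closure {z : Circle | z ^ N = 1 ∧ z ≠ 1} := by
    exact map_mem_closure F.continuous_toFun hB1 hFB
  rw [(isClosed_roots N hNpos).closure_eq, map_one] at h1
  exact h1.2 rfl

/-- a precompact minimal abelian group of countable tightness has countable pseudocharacter -/
theorem abelian (hp : Precompact A) (hm : Minimal A) (ht : Tight A) : CP (Set.univ : Set A) := by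
  have hsep := exists_char hp
  by_cases hc : Countable (A →ₜ* Circle)
  · -- countably many characters
    obtain ⟨e, he⟩ := exists_surjective_nat ((A →ₜ* Circle) × ℕ)
    refine ⟨fun n => (e n).1 ⁻¹' Metric.ball (1 : Circle) (1 / ((e n).2 + 1)), fun n => ?_, ?_⟩
    · apply (e n).1.continuous_toFun.continuousAt.preimage_mem_nhds
      have h1 : (e n).1.toFun 1 = 1 := map_one (e n).1
      rw [h1]
      exact Metric.ball_mem_nhds _ (by positivity)
    · intro z _ hz
      by_contra hne
      obtain ⟨χ, hχ⟩ := hsep z hne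
      have hd : 0 < dist (χ z) 1 := dist_pos.2 hχ
      obtain ⟨k, hk⟩ := exists_nat_one_div_lt hd
      obtain ⟨n, hn⟩ := he (χ, k)
      have h2 : dist ((e n).1 z) 1 < 1 / (((e n).2 : ℝ) + 1) := hz n
      rw [hn] at h2
      have h3 : dist (χ z) 1 < 1 / ((k : ℝ) + 1) := h2
      linarith
  · exfalso
    let Ω : Type := (Cardinal.aleph 1 : Cardinal.{0}).ord.ToType
    have hcard : Cardinal.mk Ω = Cardinal.aleph 1 := by simp [Ω]
    have hIic : ∀ β : Ω, (Iic β).Countable := by
      intro β
      have h1 : Cardinal.mk (Iio β) < Cardinal.aleph 1 := by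
        have := Cardinal.mk_Iio_lt β (by rw [hcard]; simp [Ω])
        rwa [hcard] at this
      rw [Cardinal.lt_aleph_one_iff, Cardinal.le_aleph0_iff_set_countable] at h1
      rw [← Set.Iio_union_right]
      exact h1.union (Set.countable_singleton β)
    have hunc : ¬ Countable Ω := by
      rw [← Cardinal.mk_le_aleph0_iff, hcard, not_le]
      exact Cardinal.aleph0_lt_aleph_one
    have hemb : ∀ ι : Type, ¬ Countable ι → Nonempty (Ω ↪ ι) := by
      intro ι hι
      rw [← Cardinal.mk_le_aleph0_iff, not_le] at hι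
      have h1 : Cardinal.mk Ω ≤ Cardinal.mk ι := by
        rw [hcard, ← Cardinal.succ_aleph0]
        exact Order.succ_le_of_lt hι
      exact Cardinal.le_def _ _ |>.1 h1
    have hX : ¬ Countable (Additive (A →ₜ* Circle)) := hc
    exact not_tight hunc hm hsep (good_of_uncountable hIic hunc hemb hX) ht

end main

theorem final (G : Type) [Group G] [TopologicalSpace G] [IsTopologicalGroup G] [T2Space G]
    (hn : Group.IsNilpotent G) (hp : Precompact G) (hm : Minimal G) (ht : Tight G) :
    TopologicalSpace.MetrizableSpace G := by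
  refine reduction ?_ G hn hp hm ht
  intro A _ _ _ _ hc hp hm ht
  letI : CommGroup A := { (inferInstance : Group A) with mul_comm := hc }
  exact abelian hp hm ht

end Pool.Agent.H241R3.Nil
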