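import Mathlib

set_option autoImplicit false

open Filter Topology Set

namespace Pool.Agent.H241R3.SG

/-! ### Lacunary characters -/

theorem exists_real (P : Set ℕ) :
    ∃ α : ℝ, ∃ r : ℕ → ℝ, Tendsto r atTop (𝓝 0) ∧
      (∀ j ∈ P, ∃ N : ℤ, ((2:ℝ) ^ (j ^ 2)) * α = N + 1 / 2 + r j) ∧
      (∀ j ∉ P, ∃ N : ℤ, ((2:ℝ) ^ (j ^ 2)) * α = N + r j) := by
  classical
  let a : ℕ → ℝ := fun k => if k ∈ P then (1/2 : ℝ) ^ (k^2+1) else 0
  have ha0 : ∀ k, 0 ≤ a k := by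
    intro k
    simp only [a]
    split_ifs <;> positivity
  have ha1 : ∀ k, a k ≤ (1/2 : ℝ) ^ (k^2+1) := by
    intro k
    simp only [a]
    split_ifs
    · exact le_refl _
    · positivity
  have hs : Summable a := by
    refine Summable.of_nonneg_of_le ha0 (fun k => ?_) (summable_geometric_two)
    refine (ha1 k).trans ?_
    exact pow_le_pow_of_le_one (by norm_num) (by norm_num) (by nlinarith)
  have key : ∀ j : ℕ, ∃ N : ℤ, ((2:ℝ) ^ (j ^ 2)) * (∑' k, a k) =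
      N + (2:ℝ) ^ (j^2) * a j + (2:ℝ)^(j^2) * ∑' i, a (i + (j+1)) := by
    intro j
    refine ⟨∑ k ∈ Finset.range j, if k ∈ P then (2:ℤ)^(j^2 - k^2 - 1) else 0, ?_⟩
    rw [← hs.sum_add_tsum_nat_add (j+1), Finset.sum_range_succ, mul_add, mul_add]
    congr 1
    congr 1
    push_cast
    rw [Finset.mul_sum]
    refine Finset.sum_congr rfl fun k hk => ?_
    have hkj : k < j := Finset.mem_range.mp hk
    simp only [a]
    split_ifs
    · have h1 : k^2 + 1 ≤ j^2 := by nlinarith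
      have h2 : j^2 = (j^2 - k^2 - 1) + (k^2 + 1) := by omega
      conv_lhs => rw [h2]
      rw [pow_add, mul_assoc, ← mul_pow]
      norm_num
    · simp
  refine ⟨∑' k, a k, fun j => (2:ℝ)^(j^2) * ∑' i, a (i + (j+1)), ?_, ?_, ?_⟩
  · have hb : ∀ j : ℕ, (2:ℝ)^(j^2) * ∑' i, a (i + (j+1)) ≤ 2 * (1/2 : ℝ)^j := by
      intro j
      rw [← tsum_mul_left]
      have hsum : Summable (fun i : ℕ => (1/2:ℝ)^j * (1/2 : ℝ)^i) :=
        summable_geometric_two.mul_left _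
      have hle : ∀ i : ℕ, (2:ℝ)^(j^2) * a (i + (j+1)) ≤ (1/2:ℝ)^j * (1/2 : ℝ)^i := by
        intro i
        have h1 : (i + (j+1))^2 + 1 = j^2 + ((i + (j+1))^2 + 1 - j^2) := by
          have : j^2 ≤ (i + (j+1))^2 := Nat.pow_le_pow_left (by omega) 2
          omega
        have h3 : j + i ≤ (i + (j+1))^2 + 1 - j^2 := by
          have : j + i + j^2 ≤ (i + (j+1))^2 + 1 := by nlinarith [Nat.zero_le (i*j)]
          omega
        calc (2:ℝ)^(j^2) * a (i + (j+1)) ≤ (2:ℝ)^(j^2) * (1/2 : ℝ) ^ ((i + (j+1))^2+1) :=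
              mul_le_mul_of_nonneg_left (ha1 _) (by positivity)
          _ = (1/2 : ℝ) ^ ((i + (j+1))^2 + 1 - j^2) := by
              conv_lhs => rw [h1]
              rw [pow_add (1/2 : ℝ) (j^2), ← mul_assoc, ← mul_pow]
              norm_num
          _ ≤ (1/2 : ℝ) ^ (j + i) :=
              pow_le_pow_of_le_one (by norm_num) (by norm_num) h3
          _ = (1/2:ℝ)^j * (1/2 : ℝ)^i := pow_add _ _ _
      have hsl : Summable (fun i : ℕ => (2:ℝ)^(j^2) * a (i + (j+1))) :=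
        Summable.of_nonneg_of_le (fun i => mul_nonneg (by positivity) (ha0 _)) hle hsum
      calc ∑' i, (2:ℝ)^(j^2) * a (i + (j+1)) ≤ ∑' i : ℕ, (1/2:ℝ)^j * (1/2 : ℝ)^i :=
            hsl.tsum_le_tsum hle hsum
        _ = 2 * (1/2 : ℝ)^j := by
            rw [tsum_mul_left, tsum_geometric_two]
            ring
    have hlim : Tendsto (fun j : ℕ => 2 * (1/2 : ℝ)^j) atTop (𝓝 0) := by
      have := (tendsto_pow_atTop_nhds_zero_of_lt_one (r := (1/2:ℝ)) (by norm_num)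
        (by norm_num)).const_mul (2:ℝ)
      simpa using this
    exact squeeze_zero (fun j => mul_nonneg (by positivity) (tsum_nonneg fun i => ha0 _)) hb hlim
  · intro j hj
    obtain ⟨N, hN⟩ := key j
    refine ⟨N, ?_⟩
    rw [hN]
    have : (2:ℝ) ^ (j^2) * a j = 1/2 := by
      simp only [a, hj, if_true]
      rw [pow_succ (1/2 : ℝ), ← mul_assoc, ← mul_pow]
      norm_num
    rw [this]
  · intro j hj
    obtain ⟨N, hN⟩ := key j
    refine ⟨N, ?_⟩
    rw [hN]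
    have : (2:ℝ) ^ (j^2) * a j = 0 := by
      simp only [a, hj, if_false, mul_zero]
    rw [this, add_zero]

/-- the circle -/
abbrev T : Type := AddCircle (1:ℝ)

theorem half_ne_zero : (((1/2 : ℝ) : AddCircle (1:ℝ))) ≠ 0 := by
  intro h
  rw [AddCircle.coe_eq_zero_iff] at h
  obtain ⟨n, hn⟩ := h
  have h1 : (n : ℝ) = 1/2 := by simpa using hn
  have h2 : ((2 * n : ℤ) : ℝ) = ((1 : ℤ) : ℝ) := by
    push_cast
    linarith
  have h3 : 2 * n = 1 := by exact_mod_cast h2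
  omega

theorem exists_char (P : Set ℕ) :
    ∃ α : T,
      Tendsto (fun j : ℕ => ((2:ℤ) ^ (j ^ 2)) • α) (atTop ⊓ 𝓟 P) (𝓝 ((1/2 : ℝ) : T)) ∧
      Tendsto (fun j : ℕ => ((2:ℤ) ^ (j ^ 2)) • α) (atTop ⊓ 𝓟 Pᶜ) (𝓝 0) := by
  obtain ⟨α, r, hr, h1, h2⟩ := exists_real P
  have hcoe : ∀ j : ℕ, ((2:ℤ) ^ (j ^ 2)) • (α : T) = ((((2:ℝ) ^ (j ^ 2)) * α : ℝ) : T) := by
    intro j
    rw [← AddCircle.coe_zsmul, zsmul_eq_mul]
    push_cast
    rfl
  have hN : ∀ N : ℤ, (((N : ℝ)) : T) = 0 := by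
    intro N
    rw [AddCircle.coe_eq_zero_iff]
    exact ⟨N, by simp⟩
  refine ⟨(α : T), ?_, ?_⟩
  · have hlim : Tendsto (fun j : ℕ => ((1/2 + r j : ℝ) : T)) (atTop ⊓ 𝓟 P)
        (𝓝 ((1/2 : ℝ) : T)) := by
      have h3 : Tendsto (fun j : ℕ => (1/2 + r j : ℝ)) atTop (𝓝 (1/2)) := by
        have := hr.const_add (1/2 : ℝ)
        simpa using this
      exact ((AddCircle.continuous_mk' (1:ℝ)).continuousAt.tendsto.comp h3).mono_left inf_le_left
    refine hlim.congr' ?_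
    have : ∀ᶠ j in atTop ⊓ 𝓟 P, j ∈ P := mem_inf_of_right (mem_principal_self P)
    filter_upwards [this] with j hj
    obtain ⟨N, hN'⟩ := h1 j hj
    rw [hcoe, hN', add_assoc, AddCircle.coe_add (1:ℝ) (N:ℝ), hN, zero_add]
  · have hlim : Tendsto (fun j : ℕ => ((r j : ℝ) : T)) (atTop ⊓ 𝓟 Pᶜ)
        (𝓝 (0 : T)) := by
      have h4 : ((0:ℝ) : T) = 0 := AddCircle.coe_zero (1:ℝ)
      rw [← h4]
      exact ((AddCircle.continuous_mk' (1:ℝ)).continuousAt.tendsto.comp hr).mono_left inf_le_left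
    refine hlim.congr' ?_
    have : ∀ᶠ j in atTop ⊓ 𝓟 Pᶜ, j ∈ Pᶜ := mem_inf_of_right (mem_principal_self _)
    filter_upwards [this] with j hj
    obtain ⟨N, hN'⟩ := h2 j hj
    rw [hcoe, hN', AddCircle.coe_add (1:ℝ) (N:ℝ), hN, zero_add]

end Pool.Agent.H241R3.SG
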