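import Pool.Agent.H241R3.SGroup

set_option autoImplicit false

open Filter Topology Set

namespace Pool.Agent.H241R3.SG

/-! ### The group and its topology -/

/-- the underlying group: the integers, written multiplicatively -/
def G : Type := Multiplicative ℤ

instance : CommGroup G := inferInstanceAs (CommGroup (Multiplicative ℤ))
instance : Countable G := inferInstanceAs (Countable (Multiplicative ℤ))

/-- the lacunary sequence -/
def z (k : ℕ) : G := Multiplicative.ofAdd ((2:ℤ) ^ (k ^ 2))

/-- the index -/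
def xi (d : ℕ × ℕ) : ℕ := 2 * Nat.pair d.1 d.2

def x (d : ℕ × ℕ) : G := z (xi d)
def y (d : ℕ × ℕ) : G := z (xi d + 1)

/-- the sequences are null for the topology `t` -/
def Null (t : TopologicalSpace G) : Prop :=
  (∀ c : ℕ, Tendsto (fun m : ℕ => x (c, m)) atTop (@nhds G t 1)) ∧
    (∀ f : ℕ → ℕ, Tendsto (fun n : ℕ => y (n, f n)) atTop (@nhds G t 1))

def fam : Set (TopologicalSpace G) := {t | @IsTopologicalGroup G t _ ∧ Null t}

/-- the finest group topology for which the sequences are null -/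
instance tau : TopologicalSpace G := sInf fam

instance : IsTopologicalGroup G := topologicalGroup_sInf (fun _ ht => ht.1)

theorem null_tau : Null tau := by
  constructor
  · intro c
    show Tendsto _ _ (@nhds G (sInf fam) 1)
    rw [nhds_sInf]
    exact tendsto_iInf.2 fun t => tendsto_iInf.2 fun ht => ht.2.1 c
  · intro f
    show Tendsto _ _ (@nhds G (sInf fam) 1)
    rw [nhds_sInf]
    exact tendsto_iInf.2 fun t => tendsto_iInf.2 fun ht => ht.2.2 f

theorem tau_le {t : TopologicalSpace G} (h1 : @IsTopologicalGroup G t _) (h2 : Null t) :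
    tau ≤ t := sInf_le ⟨h1, h2⟩

/-- a homomorphism to a topological group along which the sequences are null is continuous -/
theorem continuous_of_null {H : Type} [Group H] [TopologicalSpace H] [IsTopologicalGroup H]
    (f : G →* H) (h1 : ∀ c : ℕ, Tendsto (fun m : ℕ => f (x (c, m))) atTop (𝓝 1))
    (h2 : ∀ g : ℕ → ℕ, Tendsto (fun n : ℕ => f (y (n, g n))) atTop (𝓝 1)) :
    Continuous f := by
  rw [continuous_iff_le_induced]
  apply tau_le
  · exact topologicalGroup_induced f
  · constructor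
    · intro c
      rw [nhds_induced, tendsto_comap_iff, map_one]
      exact h1 c
    · intro g
      rw [nhds_induced, tendsto_comap_iff, map_one]
      exact h2 g

theorem xi_col (c : ℕ) : Tendsto (fun m : ℕ => xi (c, m)) atTop atTop := by
  refine tendsto_atTop_mono (fun m => ?_) tendsto_id
  show m ≤ 2 * Nat.pair c m
  have := Nat.right_le_pair c m
  omega

theorem xi_graph (f : ℕ → ℕ) : Tendsto (fun n : ℕ => xi (n, f n)) atTop atTop := by
  refine tendsto_atTop_mono (fun n => ?_) tendsto_id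
  show n ≤ 2 * Nat.pair n (f n)
  have := Nat.left_le_pair n (f n)
  omega

theorem xi_cof : Tendsto xi cofinite atTop := by
  have h : Function.Injective xi := by
    intro a b hab
    have h1 : Nat.pair a.1 a.2 = Nat.pair b.1 b.2 := by
      have : 2 * Nat.pair a.1 a.2 = 2 * Nat.pair b.1 b.2 := hab
      omega
    rw [Nat.pair_eq_pair] at h1
    exact Prod.ext h1.1 h1.2
  have := h.tendsto_cofinite
  rwa [Nat.cofinite_eq_atTop] at this

/-- the homomorphism given by an element of an additive group -/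
def hom {A : Type} [AddCommGroup A] (α : A) : G →* Multiplicative A :=
  AddMonoidHom.toMultiplicative (zmultiplesHom A α)

theorem hom_z {A : Type} [AddCommGroup A] (α : A) (k : ℕ) :
    hom α (z k) = Multiplicative.ofAdd (((2:ℤ) ^ (k ^ 2)) • α) := rfl

/-- characters with prescribed behaviour -/
theorem exists_char' (P : Set ℕ) :
    ∃ χ : G →* Multiplicative T, ∃ t : Multiplicative T, t ≠ 1 ∧
      Tendsto (fun j : ℕ => χ (z j)) (atTop ⊓ 𝓟 P) (𝓝 t) ∧
      Tendsto (fun j : ℕ => χ (z j)) (atTop ⊓ 𝓟 Pᶜ) (𝓝 1) := by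
  obtain ⟨α, h1, h2⟩ := exists_char P
  refine ⟨hom α, Multiplicative.ofAdd ((1/2 : ℝ) : T), ?_, ?_, ?_⟩
  · intro h
    exact half_ne_zero (Multiplicative.ofAdd.injective h)
  · simp only [hom_z]
    exact (continuous_ofAdd.tendsto _).comp h1
  · simp only [hom_z]
    exact (continuous_ofAdd.tendsto _).comp h2

theorem exists_sep (g : G) (hg : g ≠ 1) :
    ∃ α : T, hom α g ≠ 1 ∧ ∀ᶠ k : ℕ in atTop, hom α (z k) = 1 := by
  let m : ℤ := Multiplicative.toAdd (α := ℤ) g
  have hm : m ≠ 0 := by
    intro h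
    apply hg
    have h1 : (Multiplicative.ofAdd m : Multiplicative ℤ) = Multiplicative.ofAdd (0:ℤ) := by rw [h]
    exact h1
  obtain ⟨r, hr⟩ : ∃ r : ℕ, |m| < 2 ^ r := by
    refine ⟨m.natAbs, ?_⟩
    have h1 : m.natAbs < 2 ^ m.natAbs := Nat.lt_two_pow_self
    rw [Int.abs_eq_natAbs]
    exact_mod_cast h1
  refine ⟨(((1/2 : ℝ) ^ r : ℝ) : T), ?_, ?_⟩
  · intro h
    have h1 : m • (((1/2 : ℝ) ^ r : ℝ) : T) = 0 := Multiplicative.ofAdd.injective h
    rw [← AddCircle.coe_zsmul, AddCircle.coe_eq_zero_iff] at h1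
    obtain ⟨n, hn⟩ := h1
    have h2 : (n : ℝ) = m * (1/2 : ℝ) ^ r := by simpa using hn
    have h3 : (n : ℝ) * 2 ^ r = m := by
      rw [h2, mul_assoc, ← mul_pow]
      norm_num
    have h4 : n * 2 ^ r = m := by exact_mod_cast h3
    rcases eq_or_ne n 0 with h0 | h0
    · rw [h0, zero_mul] at h4
      exact hm h4.symm
    · have h5 : (1 : ℤ) ≤ |n| := Int.one_le_abs h0
      have h6 : |m| = |n| * 2 ^ r := by
        rw [← h4, abs_mul, abs_of_pos (by positivity : (0:ℤ) < 2 ^ r)]
      have h7 : (0:ℤ) < 2 ^ r := by positivity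
      nlinarith
  · filter_upwards [eventually_ge_atTop r] with k hk
    rw [hom_z]
    have h1 : ((2:ℤ) ^ (k ^ 2)) • (((1/2 : ℝ) ^ r : ℝ) : T) = 0 := by
      rw [← AddCircle.coe_zsmul, AddCircle.coe_eq_zero_iff]
      have hrk : r ≤ k ^ 2 := by nlinarith
      obtain ⟨s, hs⟩ := Nat.exists_eq_add_of_le hrk
      refine ⟨(2:ℤ) ^ s, ?_⟩
      rw [hs, zsmul_eq_mul, zsmul_eq_mul, mul_one]
      push_cast
      rw [pow_add, mul_comm ((2:ℝ)^r), mul_assoc, ← mul_pow]
      norm_num
    rw [h1]
    rfl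

theorem tendsto_hom_sep {α : T} (h : ∀ᶠ k : ℕ in atTop, hom α (z k) = 1) :
    Continuous (hom α) := by
  apply continuous_of_null
  · intro c
    have : ∀ᶠ m : ℕ in atTop, hom α (x (c, m)) = 1 := (xi_col c).eventually h
    exact (tendsto_congr' this).2 tendsto_const_nhds
  · intro f
    have h1 : Tendsto (fun n : ℕ => xi (n, f n) + 1) atTop atTop :=
      tendsto_atTop_mono (fun n => Nat.le_succ _) (xi_graph f)
    have : ∀ᶠ n : ℕ in atTop, hom α (y (n, f n)) = 1 := h1.eventually h
    exact (tendsto_congr' this).2 tendsto_const_nhds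

instance : T2Space G := by
  apply IsTopologicalGroup.t2Space_of_one_sep
  intro g hg
  obtain ⟨α, h1, h2⟩ := exists_sep g hg
  have hc := tendsto_hom_sep h2
  refine ⟨(hom α) ⁻¹' {hom α g}ᶜ, ?_, ?_⟩
  · apply hc.continuousAt.preimage_mem_nhds
    rw [map_one]
    exact isOpen_compl_singleton.mem_nhds (fun h => h1 (Set.mem_singleton_iff.1 h).symm)
  · simp

/-- the test set -/
def E : Set G := Set.range fun d : ℕ × ℕ => x d * y d

theorem one_notMem_E : (1 : G) ∉ E := by
  rintro ⟨d, hd⟩
  have h1 : ((2:ℤ) ^ ((xi d) ^ 2)) + (2:ℤ) ^ ((xi d + 1) ^ 2) = 0 :=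
    Multiplicative.ofAdd.injective hd
  have h2 : (0:ℤ) < (2:ℤ) ^ ((xi d) ^ 2) := by positivity
  have h3 : (0:ℤ) < (2:ℤ) ^ ((xi d + 1) ^ 2) := by positivity
  omega

theorem one_mem_closure : (1 : G) ∈ closure E := by
  rw [mem_closure_iff_nhds]
  intro W hW
  obtain ⟨V, hV, hVW⟩ := exists_nhds_one_split (M := G) hW
  have h1 : ∀ n : ℕ, ∃ m : ℕ, x (n, m) ∈ V := fun n =>
    ((null_tau.1 n).eventually hV).exists
  choose f hf using h1
  obtain ⟨n, hn⟩ := ((null_tau.2 f).eventually hV).exists
  exact ⟨x (n, f n) * y (n, f n), hVW _ (hf n) _ hn, ⟨(n, f n), rfl⟩⟩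

theorem not_isClosed_E : ¬ IsClosed E := by
  intro h
  exact one_notMem_E (h.closure_eq ▸ one_mem_closure)

theorem continuous_char {P : Set ℕ} {χ : G →* Multiplicative T}
    (h : Tendsto (fun j : ℕ => χ (z j)) (atTop ⊓ 𝓟 Pᶜ) (𝓝 1))
    (h1 : ∀ c : ℕ, ∀ᶠ m in atTop, xi (c, m) ∉ P)
    (h2 : ∀ f : ℕ → ℕ, ∀ᶠ n in atTop, xi (n, f n) + 1 ∉ P) : Continuous χ := by
  apply continuous_of_null
  · intro c
    have h3 : Tendsto (fun m : ℕ => xi (c, m)) atTop (atTop ⊓ 𝓟 Pᶜ) :=
      tendsto_inf.2 ⟨xi_col c, tendsto_principal.2 (h1 c)⟩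
    exact h.comp h3
  · intro f
    have h1 : Tendsto (fun n : ℕ => xi (n, f n) + 1) atTop atTop :=
      tendsto_atTop_mono (fun n => Nat.le_succ _) (xi_graph f)
    have h3 : Tendsto (fun n : ℕ => xi (n, f n) + 1) atTop (atTop ⊓ 𝓟 Pᶜ) :=
      tendsto_inf.2 ⟨h1, tendsto_principal.2 (h2 f)⟩
    exact h.comp h3

theorem isSeqClosed_E : IsSeqClosed E := by
  intro u g hu hug
  by_contra hg
  choose d hd using hu
  have hd' : ∀ n, x (d n) * y (d n) = u n := hd
  -- `d` tends to infinity
  have hdc : Tendsto d atTop cofinite := by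
    rw [Filter.tendsto_def]
    intro s hs
    have hfin : (sᶜ).Finite := hs
    have hev : ∀ᶠ n in atTop, ∀ e ∈ sᶜ, d n ≠ e := by
      rw [eventually_all_finite hfin]
      intro e _
      have hne : x e * y e ≠ g := fun h => hg ⟨e, h⟩
      have : ∀ᶠ n in atTop, u n ≠ x e * y e :=
        hug.eventually (isOpen_ne.mem_nhds hne.symm)
      filter_upwards [this] with n hn hne'
      apply hn
      rw [← hd' n, hne']
    filter_upwards [hev] with n hn
    by_contra hns
    exact hn (d n) hns rfl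
  have hxi : Tendsto (fun n => xi (d n)) atTop atTop := xi_cof.comp hdc
  have hyi : Tendsto (fun n => xi (d n) + 1) atTop atTop :=
    tendsto_atTop_mono (fun n => Nat.le_succ _) hxi
  -- the limit is trivial
  have hg1 : g = 1 := by
    by_contra hne
    obtain ⟨α, h1, h2⟩ := exists_sep g hne
    have hc := tendsto_hom_sep h2
    have h3 : Tendsto (fun n => hom α (u n)) atTop (𝓝 (hom α g)) :=
      (hc.tendsto g).comp hug
    have h4 : ∀ᶠ n in atTop, hom α (u n) = 1 := by
      filter_upwards [hxi.eventually h2, hyi.eventually h2] with n hn1 hn2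
      rw [← hd' n, map_mul]
      show hom α (z (xi (d n))) * hom α (z (xi (d n) + 1)) = 1
      rw [hn1, hn2, mul_one]
    have h5 : Tendsto (fun n => hom α (u n)) atTop (𝓝 1) :=
      (tendsto_congr' h4).2 tendsto_const_nhds
    exact h1 (tendsto_nhds_unique h3 h5)
  subst hg1
  by_cases hcol : ∃ c : ℕ, ∃ᶠ n in atTop, (d n).1 = c
  · -- infinitely many terms in one column
    obtain ⟨c, hc⟩ := hcol
    let P : Set ℕ := {k | ∃ m : ℕ, k = xi (c, m) + 1}
    obtain ⟨χ, t, ht, hP, hPc⟩ := exists_char' P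
    have hodd : ∀ e : ℕ × ℕ, xi e ∉ P := by
      rintro e ⟨m, hm⟩
      simp only [xi] at hm
      omega
    have hcont : Continuous χ := by
      refine continuous_char hPc (fun c => Eventually.of_forall fun m => hodd _) ?_
      intro f
      filter_upwards [eventually_ne_atTop c] with n hn
      rintro ⟨m, hm⟩
      have h1 : Nat.pair n (f n) = Nat.pair c m := by
        simp only [xi] at hm
        omega
      rw [Nat.pair_eq_pair] at h1
      exact hn h1.1
    have h1 : Tendsto (fun n => χ (u n)) atTop (𝓝 1) := by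
      have := (hcont.tendsto 1).comp hug
      rwa [map_one] at this
    have h2 : Tendsto (fun n => χ (x (d n))) atTop (𝓝 1) :=
      hPc.comp (tendsto_inf.2 ⟨hxi, tendsto_principal.2
        (Eventually.of_forall fun n => hodd _)⟩)
    have h3 : Tendsto (fun n => χ (y (d n))) atTop (𝓝 1) := by
      have h4 := h2.inv.mul h1
      rw [inv_one, mul_one] at h4
      refine h4.congr fun n => ?_
      rw [← hd' n, map_mul]
      group
    have h4 : Tendsto (fun n => χ (y (d n))) (atTop ⊓ 𝓟 {n | (d n).1 = c}) (𝓝 t) := by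
      have h5 : Tendsto (fun n => xi (d n) + 1) (atTop ⊓ 𝓟 {n | (d n).1 = c})
          (atTop ⊓ 𝓟 P) := by
        refine tendsto_inf.2 ⟨hyi.mono_left inf_le_left, tendsto_principal.2 ?_⟩
        have : ∀ᶠ n in atTop ⊓ 𝓟 {n | (d n).1 = c}, (d n).1 = c :=
          mem_inf_of_right (mem_principal_self _)
        filter_upwards [this] with n hn
        refine ⟨(d n).2, ?_⟩
        rw [← hn]
      exact hP.comp h5
    have : (atTop ⊓ 𝓟 {n | (d n).1 = c} : Filter ℕ).NeBot :=
      frequently_mem_iff_neBot.1 hc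
    exact ht (tendsto_nhds_unique h4 (h3.mono_left inf_le_left))
  · -- finitely many terms in each column
    push Not at hcol
    let P : Set ℕ := {k | ∃ n : ℕ, k = xi (d n)}
    obtain ⟨χ, t, ht, hP, hPc⟩ := exists_char' P
    have heven : ∀ e : ℕ × ℕ, xi e + 1 ∉ P := by
      rintro e ⟨m, hm⟩
      simp only [xi] at hm
      omega
    have hcont : Continuous χ := by
      refine continuous_char hPc ?_ (fun f => Eventually.of_forall fun n => heven _)
      intro c
      obtain ⟨N, hN⟩ := eventually_atTop.1 (hcol c)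
      have hfin : Set.Finite ((fun n => (d n).2) '' (Set.Iio N)) := (Set.finite_Iio N).image _
      obtain ⟨M, hM⟩ := hfin.bddAbove
      filter_upwards [eventually_gt_atTop M] with m hm
      rintro ⟨n, hn⟩
      have h1 : Nat.pair c m = Nat.pair (d n).1 (d n).2 := by
        simp only [xi] at hn
        omega
      rw [Nat.pair_eq_pair] at h1
      have h2 : n < N := by
        by_contra hlt
        exact hN n (not_lt.1 hlt) h1.1.symm
      have h3 : (d n).2 ≤ M := hM ⟨n, h2, rfl⟩
      omega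
    have h1 : Tendsto (fun n => χ (u n)) atTop (𝓝 1) := by
      have := (hcont.tendsto 1).comp hug
      rwa [map_one] at this
    have h2 : Tendsto (fun n => χ (y (d n))) atTop (𝓝 1) :=
      hPc.comp (tendsto_inf.2 ⟨hyi, tendsto_principal.2
        (Eventually.of_forall fun n => heven _)⟩)
    have h3 : Tendsto (fun n => χ (x (d n))) atTop (𝓝 1) := by
      have h4 := h1.mul h2.inv
      rw [inv_one, mul_one] at h4
      refine h4.congr fun n => ?_
      rw [← hd' n, map_mul]
      group
    have h4 : Tendsto (fun n => χ (x (d n))) atTop (𝓝 t) :=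
      hP.comp (tendsto_inf.2 ⟨hxi, tendsto_principal.2
        (Eventually.of_forall fun n => ⟨n, rfl⟩)⟩)
    exact ht (tendsto_nhds_unique h4 h3)

theorem not_sequentialSpace : ¬ SequentialSpace G := fun h =>
  not_isClosed_E (h.isClosed_of_seq E isSeqClosed_E)

end Pool.Agent.H241R3.SG
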