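import Pool.Agent.H241R3.SGroup2

set_option autoImplicit false

open Filter Topology Set
open scoped Pointwise

namespace Pool.Agent.H241R3.SG

def of (m : ℤ) : G := (Multiplicative.ofAdd m : Multiplicative ℤ)

theorem exists_of (g : G) : ∃ m : ℤ, g = of m := ⟨Multiplicative.toAdd (α := ℤ) g, rfl⟩

theorem of_mul (a b : ℤ) : of a * of b = of (a + b) := rfl

theorem of_inv (a : ℤ) : (of a)⁻¹ = of (-a) := rfl

theorem of_zero : of 0 = 1 := rfl

theorem of_zpow (a b : ℤ) : (of a) ^ b = of (b * a) := by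
  have h : (of a) ^ b = of (b • a) := rfl
  rw [h, smul_eq_mul]

theorem isOpen_of_isClosed (K : Subgroup G) (hK : IsClosed (K : Set G)) (hne : K ≠ ⊥) :
    IsOpen (K : Set G) := by
  obtain ⟨g0, hg0⟩ := Subgroup.ne_bot_iff_exists_ne_one.1 hne
  obtain ⟨g, hg, hg1⟩ : ∃ g : G, g ∈ K ∧ g ≠ 1 := ⟨g0, g0.2, fun h => hg0 (Subtype.ext h)⟩
  obtain ⟨n, hn⟩ := exists_of (g : G)
  have hn0 : n ≠ 0 := by
    rintro rfl
    exact hg1 hn
  have hmul : ∀ k : ℤ, of (k * n) ∈ K := by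
    intro k
    rw [← of_zpow, ← hn]
    exact K.zpow_mem hg k
  have hfin : Finite (G ⧸ K) := by
    refine Finite.of_surjective (fun i : Fin n.natAbs => ((of (i : ℕ) : G) : G ⧸ K)) ?_
    intro q
    obtain ⟨g', rfl⟩ := QuotientGroup.mk_surjective q
    obtain ⟨m, hm⟩ := exists_of g'
    rw [hm]
    have h1 : 0 ≤ m % n := Int.emod_nonneg _ hn0
    have h2 : m % n < n.natAbs := by
      rw [← Int.abs_eq_natAbs]
      exact Int.emod_lt_abs _ hn0
    refine ⟨⟨(m % n).toNat, by omega⟩, ?_⟩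
    show ((of (((m % n).toNat : ℕ) : ℤ) : G) : G ⧸ K) = _
    rw [Int.toNat_of_nonneg h1, QuotientGroup.eq, of_inv, of_mul]
    have h3 : -(m % n) + m = (m / n) * n := by
      have := Int.emod_add_mul_ediv m n
      linarith
    rw [h3]
    exact hmul _
  have : K.FiniteIndex := Subgroup.finiteIndex_of_finite_quotient
  exact K.isOpen_of_isClosed_of_finiteIndex hK

theorem continuous_of_seqContinuous {H : Type} [Group H] [TopologicalSpace H]
    [IsTopologicalGroup H] (f : G →* H) (hf : SeqContinuous (f : G → H)) :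
    Continuous (f : G → H) := by
  apply continuous_of_null
  · intro c
    have := hf (null_tau.1 c)
    rwa [map_one] at this
  · intro g
    have := hf (null_tau.2 g)
    rwa [map_one] at this

theorem continuous_sub (K : Subgroup G) (hK : IsClosed (K : Set G)) {H : Type} [Group H]
    [TopologicalSpace H] [IsTopologicalGroup H] (f : K →* H)
    (hf : SeqContinuous (f : K → H)) : Continuous (f : K → H) := by
  classical
  rcases eq_or_ne K ⊥ with hbot | hbot
  · subst hbot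
    exact continuous_of_discreteTopology
  have hopen := isOpen_of_isClosed K hK hbot
  have hK1 : (K : Set G) ∈ 𝓝 (1 : G) := hopen.mem_nhds K.one_mem
  -- null sequences of `G`
  have key : ∀ s : ℕ → G, Tendsto s atTop (𝓝 1) → ∀ V ∈ 𝓝 (1 : H),
      ∀ᶠ n in atTop, s n ∈ (Subtype.val '' (f ⁻¹' V) : Set G) := by
    intro s hs V hV
    have hsK : ∀ᶠ n in atTop, s n ∈ K := hs.eventually hK1
    let s' : ℕ → K := fun n => if h : s n ∈ K then ⟨s n, h⟩ else 1
    have hs's : ∀ᶠ n in atTop, ((s' n : K) : G) = s n := by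
      filter_upwards [hsK] with n hn
      simp only [s', dif_pos hn]
    have h1 : Tendsto s' atTop (𝓝 1) := by
      rw [tendsto_subtype_rng]
      exact (tendsto_congr' hs's).2 hs
    have h2 := hf h1
    rw [map_one] at h2
    filter_upwards [hs's, h2.eventually hV] with n hn1 hn2
    exact ⟨s' n, hn2, hn1⟩
  -- the group topology on `G` for which `K` is open and carries the topology induced by `f`
  let B : GroupFilterBasis G := groupFilterBasisOfComm
    {U : Set G | ∃ V ∈ 𝓝 (1 : H), U = Subtype.val '' (f ⁻¹' V)}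
    ⟨_, Set.univ, univ_mem, rfl⟩
    (by
      rintro _ _ ⟨V, hV, rfl⟩ ⟨W, hW, rfl⟩
      refine ⟨_, ⟨V ∩ W, inter_mem hV hW, rfl⟩, ?_⟩
      rintro _ ⟨k, hk, rfl⟩
      exact ⟨⟨k, hk.1, rfl⟩, ⟨k, hk.2, rfl⟩⟩)
    (by
      rintro _ ⟨V, hV, rfl⟩
      refine ⟨1, ?_, rfl⟩
      show f 1 ∈ V
      rw [map_one]
      exact mem_of_mem_nhds hV)
    (by
      rintro _ ⟨V, hV, rfl⟩
      obtain ⟨W, hW, hWV⟩ := exists_nhds_one_split (M := H) hV
      refine ⟨_, ⟨W, hW, rfl⟩, ?_⟩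
      rintro _ ⟨_, ⟨k, hk, rfl⟩, _, ⟨l, hl, rfl⟩, rfl⟩
      refine ⟨k * l, ?_, rfl⟩
      show f (k * l) ∈ V
      rw [map_mul]
      exact hWV _ hk _ hl)
    (by
      rintro _ ⟨V, hV, rfl⟩
      refine ⟨_, ⟨V⁻¹, inv_mem_nhds_one H hV, rfl⟩, ?_⟩
      rintro _ ⟨k, hk, rfl⟩
      refine ⟨k⁻¹, ?_, rfl⟩
      show f k⁻¹ ∈ V
      rw [map_inv]
      exact hk)
  have hBmem : ∀ U : Set G, U ∈ B ↔ ∃ V ∈ 𝓝 (1 : H), U = Subtype.val '' (f ⁻¹' V) :=
    fun U => Iff.rfl
  have hBnull : ∀ s : ℕ → G, Tendsto s atTop (𝓝 1) → Tendsto s atTop (@nhds G B.topology 1) := by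
    intro s hs
    rw [B.nhds_one_hasBasis.tendsto_right_iff]
    rintro _ ⟨V, hV, rfl⟩
    exact key s hs V hV
  have hle : tau ≤ B.topology := tau_le B.isTopologicalGroup
    ⟨fun c => hBnull _ (null_tau.1 c), fun g => hBnull _ (null_tau.2 g)⟩
  apply continuous_of_continuousAt_one f
  intro V hV
  rw [map_one] at hV
  have h1 : (Subtype.val '' (f ⁻¹' V) : Set G) ∈ @nhds G B.topology 1 :=
    B.nhds_one_hasBasis.mem_of_mem (i := (Subtype.val '' (f ⁻¹' V) : Set G)) ⟨V, hV, rfl⟩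
  have h2 : (Subtype.val '' (f ⁻¹' V) : Set G) ∈ 𝓝 ((1 : K) : G) := nhds_mono hle h1
  have h3 : (Subtype.val : K → G) ⁻¹' (Subtype.val '' (f ⁻¹' V)) ∈ 𝓝 (1 : K) :=
    continuous_subtype_val.continuousAt.preimage_mem_nhds h2
  rwa [Set.preimage_image_eq _ Subtype.val_injective] at h3

end Pool.Agent.H241R3.SG
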